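import Pool.Agent.LibTri68P.PDefs

open Filter Topology Polynomial Finset
open Pool.Agent.LibTri77

namespace Pool.Agent.LibTri68P

private theorem p01_hasSum (q t : ℝ) (hq : 0 < q) (h0 : 0 < t) (h1 : t < q) :
    HasSum (fun n : ℕ => 1 / (t + -(q * ((n : ℝ) + 1))) ^ 1 + 1 / (t + q * ((n : ℝ) + 1)) ^ 1)
      ((ct (t / q) - 1 / (t / q + 0)) / q) := by
  have hx0 : 0 < t / q := div_pos h0 hq
  have hx1 : t / q < 1 := (div_lt_one hq).mpr h1
  have h := (ct_hasSum (t / q) hx0 hx1).div_const q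
  refine h.congr_fun ?_
  intro n
  have hn : (0 : ℝ) ≤ n := Nat.cast_nonneg n
  have e1 : t + -(q * ((n : ℝ) + 1)) ≠ 0 := by
    have : q * 1 ≤ q * ((n : ℝ) + 1) := mul_le_mul_of_nonneg_left (by linarith) hq.le
    intro hh
    linarith
  have e2 : t + q * ((n : ℝ) + 1) ≠ 0 := by
    have : 0 ≤ q * ((n : ℝ) + 1) := mul_nonneg hq.le (by linarith)
    intro hh
    linarith
  have e3 : t / q + -((n : ℝ) + 1) = (t + -(q * ((n : ℝ) + 1))) / q := by
    field_simp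
  have e4 : t / q + ((n : ℝ) + 1) = (t + q * ((n : ℝ) + 1)) / q := by
    field_simp
  rw [e3, e4, pow_one, pow_one]
  field_simp

/-- ROW P01. `S q 1` is the cotangent (`ct_hasSum` of LibTri77 with `x = t/q`, multiply by `1/q`);
absolute convergence for `s ≥ 2` (`|t ± q(n+1)| ≥ c (n+1)` with `c = q - t`); termwise
differentiation by `hasDerivAt_tsum_of_isPreconnected` on `Ioo (t/2) ((t+q)/2)` (the derivatives of
the terms are bounded there by `s (1/(c(n+1))^(s+1) + 1/(q(n+1))^(s+1))`, `c = (q-t)/2`; summability at the point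
`t`: `ct_hasSum` for `s = 1`). -/
theorem S_one (q t : ℝ) (hq : 0 < q) (h0 : 0 < t) (h1 : t < q) : S q 1 t = ct (t / q) / q := by
  unfold S
  rw [(p01_hasSum q t hq h0 h1).tsum_eq, pow_one, add_zero]
  field_simp
  ring

private theorem p01_low (q c z : ℝ) (hc : 0 < c) (hz : 0 < z) (h : c ≤ q - z) (n : ℕ) :
    c * ((n : ℝ) + 1) ≤ |z + -(q * ((n : ℝ) + 1))| := by
  have hn : (0 : ℝ) ≤ n := Nat.cast_nonneg n
  have h1 : c * ((n : ℝ) + 1) ≤ (q - z) * ((n : ℝ) + 1) :=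
    mul_le_mul_of_nonneg_right h (by linarith)
  have h2 : 0 ≤ z * n := mul_nonneg hz.le hn
  rw [abs_sub_comm_aux]
  exact (le_trans (by linarith) (le_abs_self _))
where
  abs_sub_comm_aux {z q : ℝ} {n : ℕ} :
    |z + -(q * ((n : ℝ) + 1))| = |q * ((n : ℝ) + 1) - z| := by
    rw [← abs_neg]; congr 1; ring

private theorem p01_high (q z : ℝ) (hq : 0 < q) (hz : 0 < z) (n : ℕ) :
    q * ((n : ℝ) + 1) ≤ |z + q * ((n : ℝ) + 1)| :=
  le_trans (by linarith) (le_abs_self _)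

private theorem p01_term (s : ℕ) (A B : ℝ) (hB : 0 < B) (h : B ≤ |A|) :
    |1 / A ^ s| ≤ 1 / B ^ s := by
  rw [abs_div, abs_one, abs_pow]
  exact one_div_le_one_div_of_le (pow_pos hB s) (pow_le_pow_left₀ hB.le h s)

private theorem p01_sum (c : ℝ) (s : ℕ) (hs : 2 ≤ s) :
    Summable (fun n : ℕ => 1 / (c * ((n : ℝ) + 1)) ^ s) := by
  have h1 : Summable (fun n : ℕ => 1 / ((n + 1 : ℕ) : ℝ) ^ s) :=
    (summable_nat_add_iff 1).mpr (Real.summable_one_div_nat_pow.mpr (by omega))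
  refine (h1.mul_left (1 / c ^ s)).congr ?_
  intro n
  rw [mul_pow]
  push_cast
  rw [one_div_mul_one_div]

theorem S_summable (q : ℝ) (s : ℕ) (t : ℝ) (hs : 2 ≤ s) (h0 : 0 < t) (h1 : t < q) :
    Summable (fun n : ℕ =>
      (1 / (t + -(q * ((n : ℝ) + 1))) ^ s + 1 / (t + q * ((n : ℝ) + 1)) ^ s)) := by
  have hq : 0 < q := h0.trans h1
  have hc : 0 < q - t := by linarith
  refine Summable.of_norm_bounded
    (g := fun n : ℕ => 1 / ((q - t) * ((n : ℝ) + 1)) ^ s + 1 / (q * ((n : ℝ) + 1)) ^ s)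
    ((p01_sum (q - t) s hs).add (p01_sum q s hs)) ?_
  intro n
  have hn : (0 : ℝ) ≤ n := Nat.cast_nonneg n
  rw [Real.norm_eq_abs]
  refine (abs_add_le _ _).trans (add_le_add ?_ ?_)
  · exact p01_term s _ _ (mul_pos hc (by linarith)) (p01_low q (q - t) t hc h0 le_rfl n)
  · exact p01_term s _ _ (mul_pos hq (by linarith)) (p01_high q t hq h0 n)

private theorem p01_deriv (a z : ℝ) (s : ℕ) (h : z + a ≠ 0) :
    HasDerivAt (fun z : ℝ => 1 / (z + a) ^ s) (-(s : ℝ) * (1 / (z + a) ^ (s + 1))) z := by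
  have h1 : HasDerivAt (fun z : ℝ => z + a) 1 z := (hasDerivAt_id z).add_const a
  have h2 := (h1.fun_pow s).fun_inv (pow_ne_zero s h)
  have h3 : HasDerivAt (fun z : ℝ => 1 / (z + a) ^ s)
      (-(↑s * (z + a) ^ (s - 1) * 1) / ((z + a) ^ s) ^ 2) z := by
    refine h2.congr_of_eventuallyEq (Filter.Eventually.of_forall fun y => ?_)
    simp only [one_div]
  refine h3.congr_deriv ?_
  rcases Nat.eq_zero_or_pos s with hs | hs
  · subst hs; simp
  · obtain ⟨k, rfl⟩ : ∃ k, s = k + 1 := ⟨s - 1, by omega⟩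
    rw [Nat.add_sub_cancel]
    field_simp
    ring

theorem S_deriv (q : ℝ) (s : ℕ) (t : ℝ) (hs : 1 ≤ s) (h0 : 0 < t) (h1 : t < q) :
    HasDerivAt (S q s) (-(s : ℝ) * S q (s + 1) t) t := by
  have hq : 0 < q := h0.trans h1
  obtain ⟨c, hcdef⟩ : ∃ c, c = (q - t) / 2 := ⟨_, rfl⟩
  have hc : 0 < c := by rw [hcdef]; linarith
  have hmem : t ∈ Set.Ioo (t / 2) ((t + q) / 2) := ⟨by linarith, by linarith⟩
  have hu : Summable (fun n : ℕ => (s : ℝ) * (1 / (c * ((n : ℝ) + 1)) ^ (s + 1) +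
      1 / (q * ((n : ℝ) + 1)) ^ (s + 1))) :=
    ((p01_sum c (s + 1) (by omega)).add (p01_sum q (s + 1) (by omega))).mul_left _
  have hz : ∀ (n : ℕ) (y : ℝ), y ∈ Set.Ioo (t / 2) ((t + q) / 2) →
      c * ((n : ℝ) + 1) ≤ |y + -(q * ((n : ℝ) + 1))| ∧ q * ((n : ℝ) + 1) ≤ |y + q * ((n : ℝ) + 1)| :=
    fun n y hy => ⟨p01_low q c y hc (by linarith [hy.1]) (by rw [hcdef]; linarith [hy.2]) n,
      p01_high q y hq (by linarith [hy.1]) n⟩
  have hsum0 : Summable (fun n : ℕ =>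
      (1 / (t + -(q * ((n : ℝ) + 1))) ^ s + 1 / (t + q * ((n : ℝ) + 1)) ^ s)) := by
    rcases Nat.lt_or_ge s 2 with h | h
    · have : s = 1 := by omega
      rw [this]
      exact (p01_hasSum q t hq h0 h1).summable
    · exact S_summable q s t h h0 h1
  have key := hasDerivAt_tsum_of_isPreconnected (𝕜 := ℝ) (F := ℝ)
    (g := fun (n : ℕ) (y : ℝ) => 1 / (y + -(q * ((n : ℝ) + 1))) ^ s + 1 / (y + q * ((n : ℝ) + 1)) ^ s)
    (g' := fun (n : ℕ) (y : ℝ) => -(s : ℝ) * (1 / (y + -(q * ((n : ℝ) + 1))) ^ (s + 1)) +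
      -(s : ℝ) * (1 / (y + q * ((n : ℝ) + 1)) ^ (s + 1)))
    (t := Set.Ioo (t / 2) ((t + q) / 2)) (y₀ := t) (y := t)
    hu isOpen_Ioo isPreconnected_Ioo
    (by
      intro n y hy
      have hn : (0 : ℝ) ≤ n := Nat.cast_nonneg n
      obtain ⟨b1, b2⟩ := hz n y hy
      have n1 : y + -(q * ((n : ℝ) + 1)) ≠ 0 := by
        intro hh
        rw [hh, abs_zero] at b1
        have := mul_pos hc (show (0 : ℝ) < (n : ℝ) + 1 by linarith)
        linarith
      have n2 : y + q * ((n : ℝ) + 1) ≠ 0 := by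
        intro hh
        rw [hh, abs_zero] at b2
        have := mul_pos hq (show (0 : ℝ) < (n : ℝ) + 1 by linarith)
        linarith
      exact (p01_deriv _ y s n1).fun_add (p01_deriv _ y s n2))
    (by
      intro n y hy
      have hn : (0 : ℝ) ≤ n := Nat.cast_nonneg n
      obtain ⟨b1, b2⟩ := hz n y hy
      have e : -(s : ℝ) * (1 / (y + -(q * ((n : ℝ) + 1))) ^ (s + 1)) +
          -(s : ℝ) * (1 / (y + q * ((n : ℝ) + 1)) ^ (s + 1)) =
          -(s : ℝ) * (1 / (y + -(q * ((n : ℝ) + 1))) ^ (s + 1) +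
            1 / (y + q * ((n : ℝ) + 1)) ^ (s + 1)) := by ring
      rw [Real.norm_eq_abs, e, abs_mul, abs_neg, abs_of_nonneg (Nat.cast_nonneg s)]
      refine mul_le_mul_of_nonneg_left ?_ (Nat.cast_nonneg s)
      refine (abs_add_le _ _).trans (add_le_add ?_ ?_)
      · exact p01_term (s + 1) _ _ (mul_pos hc (by linarith)) b1
      · exact p01_term (s + 1) _ _ (mul_pos hq (by linarith)) b2)
    hmem hsum0 hmem
  have h2 : HasDerivAt (fun z : ℝ => 1 / (z + 0) ^ s) (-(s : ℝ) * (1 / (t + 0) ^ (s + 1))) t :=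
    p01_deriv 0 t s (by rw [add_zero]; exact h0.ne')
  have h3 := h2.fun_add key
  have h4 : HasDerivAt (S q s) (-(s : ℝ) * (1 / (t + 0) ^ (s + 1)) +
      ∑' n : ℕ, (-(s : ℝ) * (1 / (t + -(q * ((n : ℝ) + 1))) ^ (s + 1)) +
      -(s : ℝ) * (1 / (t + q * ((n : ℝ) + 1)) ^ (s + 1)))) t := by
    refine h3.congr_of_eventuallyEq (Filter.Eventually.of_forall fun y => ?_)
    simp only [S, add_zero]
  refine h4.congr_deriv ?_
  have e : ∀ n : ℕ, (-(s : ℝ) * (1 / (t + -(q * ((n : ℝ) + 1))) ^ (s + 1)) +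
      -(s : ℝ) * (1 / (t + q * ((n : ℝ) + 1)) ^ (s + 1))) =
      -(s : ℝ) * (1 / (t + -(q * ((n : ℝ) + 1))) ^ (s + 1) +
        1 / (t + q * ((n : ℝ) + 1)) ^ (s + 1)) := fun n => by ring
  rw [tsum_congr e, tsum_mul_left]
  unfold S
  rw [add_zero]
  ring

end Pool.Agent.LibTri68P
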