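import Pool.Agent.LibTri68P.P01

open Filter Topology Polynomial Finset
open Pool.Agent.LibTri77

namespace Pool.Agent.LibTri68P

private theorem P02_term (R A : ℝ) (s n : ℕ) (hs : 2 ≤ s) (hR : 0 < R)
    (hA : ((n : ℝ) + 1) * R ≤ |A|) : |1 / A ^ s| ≤ 1 / R ^ s * (1 / ((n : ℝ) + 1) ^ 2) := by
  have hn : (0 : ℝ) < (n : ℝ) + 1 := by positivity
  have h1 : ((n : ℝ) + 1) ^ 2 ≤ ((n : ℝ) + 1) ^ s :=
    pow_le_pow_right₀ (by linarith [Nat.cast_nonneg (α := ℝ) n]) hs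
  have h2 : (((n : ℝ) + 1) * R) ^ s ≤ |A| ^ s := pow_le_pow_left₀ (by positivity) hA s
  have h3 : (0 : ℝ) < ((n : ℝ) + 1) ^ 2 * R ^ s := by positivity
  have h4 : ((n : ℝ) + 1) ^ 2 * R ^ s ≤ |A| ^ s := by
    calc ((n : ℝ) + 1) ^ 2 * R ^ s ≤ ((n : ℝ) + 1) ^ s * R ^ s :=
          mul_le_mul_of_nonneg_right h1 (by positivity)
      _ = (((n : ℝ) + 1) * R) ^ s := (mul_pow _ _ _).symm
      _ ≤ |A| ^ s := h2
  have h5 : 1 / R ^ s * (1 / ((n : ℝ) + 1) ^ 2) = 1 / (((n : ℝ) + 1) ^ 2 * R ^ s) := by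
    field_simp
  rw [h5, abs_div, abs_one, abs_pow]
  exact one_div_le_one_div_of_le h3 h4

/-- ROW P02. `q ≥ 2R`, `|t + -(q(n+1))| = q(n+1) - t ≥ qn + R ≥ (2n+1)R ≥ (n+1)R`, same for
`t + q(n+1)`; `1/|.|^s ≤ (1/R^s)(1/(n+1)^2)`; `zeta_two_le` of LibTri77 (sum of `1/(n+1)^2` is `π^2/6`);
`1 + 2 π^2/6 ≤ 5`. -/
theorem S_bound (q R : ℝ) (s : ℕ) (t : ℝ) (hs : 2 ≤ s) (hR : 0 < R) (h0 : R ≤ t)
    (h1 : t + R ≤ q) : |S q s t| ≤ 5 / R ^ s := by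
  have hq : 2 * R ≤ q := by linarith
  have hRs : (0 : ℝ) < R ^ s := by positivity
  have ha : |1 / t ^ s| ≤ 1 / R ^ s := by
    have ht : 0 < t := lt_of_lt_of_le hR h0
    rw [abs_of_pos (by positivity)]
    exact one_div_le_one_div_of_le hRs (pow_le_pow_left₀ hR.le h0 s)
  have hb : ∀ n : ℕ, ‖1 / (t + -(q * ((n : ℝ) + 1))) ^ s + 1 / (t + q * ((n : ℝ) + 1)) ^ s‖
      ≤ 2 / R ^ s * (1 / ((n : ℝ) + 1) ^ 2) := by
    intro n
    have hn : (0 : ℝ) ≤ n := Nat.cast_nonneg n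
    have hRn : 0 ≤ R * n := by positivity
    have hqn : 2 * R * n ≤ q * n := mul_le_mul_of_nonneg_right hq hn
    have e1 := P02_term R (t + -(q * ((n : ℝ) + 1))) s n hs hR (by
      have h2 : ((n : ℝ) + 1) * R ≤ -(t + -(q * ((n : ℝ) + 1))) := by linarith
      exact h2.trans (neg_le_abs _))
    have e2 := P02_term R (t + q * ((n : ℝ) + 1)) s n hs hR (by
      have h2 : ((n : ℝ) + 1) * R ≤ t + q * ((n : ℝ) + 1) := by linarith
      exact h2.trans (le_abs_self _))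
    rw [Real.norm_eq_abs]
    have h3 : 2 / R ^ s * (1 / ((n : ℝ) + 1) ^ 2)
        = 1 / R ^ s * (1 / ((n : ℝ) + 1) ^ 2) + 1 / R ^ s * (1 / ((n : ℝ) + 1) ^ 2) := by ring
    rw [h3]
    exact (abs_add_le _ _).trans (add_le_add e1 e2)
  have hsum : HasSum (fun n : ℕ => 2 / R ^ s * (1 / ((n : ℝ) + 1) ^ 2))
      (2 / R ^ s * (Real.pi ^ 2 / 6)) := zeta_two_le.mul_left _
  have hc := tsum_of_norm_bounded hsum hb
  rw [Real.norm_eq_abs] at hc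
  have hpi : Real.pi ^ 2 / 6 ≤ 2 := by
    have h2 := Real.pi_lt_d2
    have h3 := Real.pi_pos
    nlinarith
  have hd : 2 / R ^ s * (Real.pi ^ 2 / 6) ≤ 4 / R ^ s := by
    have h2 : 2 / R ^ s * (Real.pi ^ 2 / 6) ≤ 2 / R ^ s * 2 :=
      mul_le_mul_of_nonneg_left hpi (by positivity)
    have h3 : 2 / R ^ s * 2 = 4 / R ^ s := by ring
    linarith
  have he : (5 : ℝ) / R ^ s = 1 / R ^ s + 4 / R ^ s := by ring
  unfold S
  rw [he]
  exact (abs_add_le _ _).trans (add_le_add ha (hc.trans hd))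

end Pool.Agent.LibTri68P
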