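import Pool.Agent.LibTri68P.P01

open Filter Topology Polynomial Finset
open Pool.Agent.LibTri77

namespace Pool.Agent.LibTri68P

/-- the chain -/
private noncomputable def DD (K : ℕ) (q : ℝ) (n : ℕ) (t : ℝ) : ℝ :=
  if n < K then (2 * Real.pi / q) ^ n * V (K - n) (t / q) / Real.pi ^ K
  else -((2 / q) ^ (K - 1) / Real.pi) *
    ((-1) ^ (n - K) * ((n - K).factorial : ℝ) * S q (n - K + 1) t)

private lemma V_comp (k : ℕ) (q t : ℝ) (hq : 0 < q) (h0 : 0 < t) (h1 : t < q) :
    HasDerivAt (fun s => V (k + 1) (s / q))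
      ((if k = 0 then 1 else 2 * Real.pi) * V k (t / q) * (1 / q)) t := by
  have h2 : 0 < t / q := div_pos h0 hq
  have h3 : t / q < 1 := (div_lt_one hq).2 h1
  have h4 : HasDerivAt (fun s : ℝ => s / q) (1 / q) t := (hasDerivAt_id t).div_const q
  exact (V_deriv k (t / q) h2 h3).comp t h4

/-- ROW P03. The successive derivatives of `gq K q` on `(0, q)`. For `n < K - 1` take
`(2π/q)^n U (K-n) (t/q) / π^K` (`U_deriv`; `U2_deriv'` for the step to `U1`), for `n = K - 1`
`(2π/q)^(K-1) U1 (t/q) / π^K`, and for `n ≥ K`, `n = K + m`: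
`-(2/q)^(K-1)/π * ((-1)^m m! S q (m+1) t)` (`U1_deriv`, `S_one`, `S_deriv`).
Alternatively use `V`, `V_deriv` of LibTri77.Final. -/
theorem exists_D (K : ℕ) (hK : 2 ≤ K) (q : ℝ) (hq : 0 < q) :
    ∃ D : ℕ → ℝ → ℝ, D 0 = gq K q ∧ Chain D 0 q ∧
      ∀ m t, 0 < t → t < q → D (K + 1 + m) t =
        (2 / q) ^ (K - 1) / Real.pi * ((-1) ^ m * ((m + 1).factorial : ℝ) * S q (m + 2) t) := by
  have hpi := Real.pi_pos
  refine ⟨DD K q, ?_, ?_, ?_⟩
  · funext t
    unfold DD gq
    rw [if_pos (by omega)]
    have : V (K - 0) = U K := by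
      unfold V
      rw [if_neg (by omega), if_neg (by omega), Nat.sub_zero]
    rw [this, pow_zero, one_mul]
  · intro n t h0 h1
    rcases Nat.lt_or_ge n K with hn | hn
    · have hfun : DD K q n =
          fun s => (2 * Real.pi / q) ^ n / Real.pi ^ K * V (K - n - 1 + 1) (s / q) := by
        funext s
        unfold DD
        rw [if_pos hn, show K - n - 1 + 1 = K - n by omega]
        ring
      have hd := (V_comp (K - n - 1) q t hq h0 h1).const_mul
        ((2 * Real.pi / q) ^ n / Real.pi ^ K)
      rw [hfun]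
      refine hd.congr_deriv ?_
      unfold DD
      rcases Nat.lt_or_ge (n + 1) K with hn1 | hn1
      · rw [if_pos hn1, if_neg (show ¬ (K - n - 1 = 0) by omega),
          show K - n - 1 = K - (n + 1) by omega, pow_succ]
        ring
      · have hnK : n + 1 = K := by omega
        rw [if_neg (show ¬ (n + 1 < K) by omega), show K - n - 1 = 0 by omega, if_pos rfl,
          show n + 1 - K = 0 by omega, zero_add, S_one q t hq h0 h1]
        have hV : V 0 (t / q) = -ct (t / q) := by
          unfold V
          rw [if_pos rfl]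
        rw [hV, show K - 1 = n by omega, ← hnK, pow_succ, pow_zero, Nat.factorial_zero,
          Nat.cast_one, div_pow, div_pow, mul_pow]
        field_simp
    · obtain ⟨m, rfl⟩ := Nat.exists_eq_add_of_le hn
      have hfun : DD K q (K + m) =
          fun s => (-((2 / q) ^ (K - 1) / Real.pi) * ((-1) ^ m * (m.factorial : ℝ))) *
            S q (m + 1) s := by
        funext s
        unfold DD
        rw [if_neg (by omega), Nat.add_sub_cancel_left]
        ring
      have hd := (S_deriv q (m + 1) t (by omega) h0 h1).const_mul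
        (-((2 / q) ^ (K - 1) / Real.pi) * ((-1) ^ m * (m.factorial : ℝ)))
      rw [hfun]
      refine hd.congr_deriv ?_
      unfold DD
      rw [if_neg (by omega), show K + m + 1 - K = m + 1 by omega, Nat.factorial_succ]
      push_cast
      ring
  · intro m t _ _
    unfold DD
    rw [if_neg (by omega), show K + 1 + m - K = m + 1 by omega]
    ring

end Pool.Agent.LibTri68P
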