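import Pool.Agent.LibTri68P.PDefs

open Filter Topology Polynomial Finset
open Pool.Agent.LibTri77

namespace Pool.Agent.LibTri68P

theorem P04_mono (n : ℕ) (x : ℕ → ℝ) (hx : ∀ i, i < n → x i < x (i + 1)) :
    ∀ j, j ≤ n → ∀ i, i ≤ j → x i ≤ x j := by
  intro j
  induction j with
  | zero =>
    intro _ i hi
    rw [Nat.le_zero.1 hi]
  | succ j ih =>
    intro hj i hi
    rcases Nat.lt_or_ge i (j + 1) with h | h
    · exact (ih (by omega) i (by omega)).trans (hx j (by omega)).le
    · rw [Nat.le_antisymm hi h]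

/-- ROW P04. Generalised Rolle: induction on `n` (generalising `D` and `x`): Rolle
(`exists_hasDerivAt_eq_zero`) gives zeros `y i ∈ (x i, x (i+1))`, `i < n`, of `D 1`; apply the
induction hypothesis to `fun n => D (n+1)` and `y`. -/
theorem rolle_gen (n : ℕ) (D : ℕ → ℝ → ℝ) (a b : ℝ) (hD : Chain D a b) (x : ℕ → ℝ)
    (hx : ∀ i, i < n → x i < x (i + 1)) (ha : a < x 0) (hb : x n < b)
    (h0 : ∀ i, i ≤ n → D 0 (x i) = 0) : ∃ ξ, x 0 ≤ ξ ∧ ξ ≤ x n ∧ D n ξ = 0 := by
  induction n generalizing D x with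
  | zero => exact ⟨x 0, le_refl _, le_refl _, h0 0 (le_refl 0)⟩
  | succ n ih =>
    have hm := P04_mono (n + 1) x hx
    have hR : ∀ i, ∃ c, i ≤ n → x i < c ∧ c < x (i + 1) ∧ D 1 c = 0 := by
      intro i
      by_cases hi : i ≤ n
      · have hlt := hx i (by omega)
        have hai : a < x i := lt_of_lt_of_le ha (hm i (by omega) 0 (Nat.zero_le i))
        have hbi : x (i + 1) < b := lt_of_le_of_lt (hm (n + 1) (le_refl _) (i + 1) (by omega)) hb
        have hcont : ContinuousOn (D 0) (Set.Icc (x i) (x (i + 1))) := by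
          intro t ht
          exact (hD 0 t (lt_of_lt_of_le hai ht.1)
            (lt_of_le_of_lt ht.2 hbi)).continuousAt.continuousWithinAt
        obtain ⟨c, hc, hc0⟩ := exists_hasDerivAt_eq_zero hlt hcont
          (by rw [h0 i (by omega), h0 (i + 1) (by omega)])
          (fun t ht => hD 0 t (lt_trans hai ht.1) (lt_trans ht.2 hbi))
        exact ⟨c, fun _ => ⟨hc.1, hc.2, hc0⟩⟩
      · exact ⟨0, fun h => absurd h hi⟩
    choose y hy using hR
    have hy0 := hy 0 (Nat.zero_le n)
    have hyn := hy n (le_refl n)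
    obtain ⟨ξ, h1, h2, h3⟩ := ih (fun m => D (m + 1)) (fun m t h h' => hD (m + 1) t h h') y
      (fun i hi => (hy i (by omega)).2.1.trans (hy (i + 1) (by omega)).1)
      (ha.trans hy0.1) (hyn.2.1.trans hb) (fun i hi => (hy i hi).2.2)
    exact ⟨ξ, hy0.1.le.trans h1, h2.trans hyn.2.1.le, h3⟩

/-- Sum of a chain and of the derivatives of a polynomial. -/
theorem chain_add_poly (Q : ℝ[X]) (D : ℕ → ℝ → ℝ) (a b : ℝ) (hD : Chain D a b) :
    Chain (fun n t => (derivative^[n] Q).eval t + D n t) a b := by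
  intro n t ha hb
  have h1 : HasDerivAt (fun t => (derivative^[n] Q).eval t) ((derivative^[n + 1] Q).eval t) t := by
    rw [Function.iterate_succ_apply']
    exact Polynomial.hasDerivAt _ t
  exact h1.add (hD n t ha hb)

/-- Leibniz (`Finset.sum_choose_succ_mul`). -/
theorem mulS_chain (Q : ℝ[X]) (D : ℕ → ℝ → ℝ) (a b : ℝ) (hD : Chain D a b) :
    Chain (mulS Q D) a b := by
  intro n t ha hb
  have h1 : ∀ i, HasDerivAt (fun t => (derivative^[i] Q).eval t)
      ((derivative^[i + 1] Q).eval t) t := by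
    intro i
    rw [Function.iterate_succ_apply']
    exact Polynomial.hasDerivAt _ t
  have h2 : HasDerivAt (mulS Q D n) (∑ i ∈ range (n + 1), (n.choose i : ℝ) *
      ((derivative^[i + 1] Q).eval t * D (n - i) t
        + (derivative^[i] Q).eval t * D (n - i + 1) t)) t :=
    HasDerivAt.fun_sum fun i _ => ((h1 i).mul (hD (n - i) t ha hb)).const_mul _
  have h3 : mulS Q D (n + 1) t = ∑ i ∈ range (n + 1), (n.choose i : ℝ) *
      ((derivative^[i + 1] Q).eval t * D (n - i) t
        + (derivative^[i] Q).eval t * D (n - i + 1) t) := by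
    have h4 := Finset.sum_choose_succ_mul
      (fun i j => (derivative^[i] Q).eval t * D j t) n
    show ∑ i ∈ range (n + 2), ((n + 1).choose i : ℝ) *
      ((derivative^[i] Q).eval t * D (n + 1 - i) t) = _
    rw [h4, ← Finset.sum_add_distrib]
    refine Finset.sum_congr rfl fun i hi => ?_
    have hi' : n + 1 - i = n - i + 1 := by
      have := Finset.mem_range.1 hi
      omega
    rw [hi']
    ring
  rw [h3]
  exact h2

end Pool.Agent.LibTri68P
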