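import Pool.Agent.LibTri68P.PDefs

open Filter Topology Polynomial Finset
open Pool.Agent.LibTri77

namespace Pool.Agent.LibTri68P

/-- ROW P05. Beta integral: induction on `b`, all `a`, from
`(1-u)^(b+1) u^a = (1-u)^b u^a - (1-u)^b u^(a+1)`. -/
theorem beta (b a : ℕ) : ∫ u in (0 : ℝ)..1, (1 - u) ^ b * u ^ a =
    (b.factorial : ℝ) * a.factorial / (a + b + 1).factorial := by
  induction b generalizing a with
  | zero =>
    have h1 : ∫ u in (0 : ℝ)..1, (1 - u) ^ 0 * u ^ a = ∫ u in (0 : ℝ)..1, u ^ a := by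
      simp
    rw [h1, integral_pow]
    have hf : ((a.factorial : ℕ) : ℝ) ≠ 0 := by exact_mod_cast Nat.factorial_ne_zero a
    rw [show a + 0 + 1 = a + 1 by ring, Nat.factorial_succ]
    have h2 : ((a : ℝ) + 1) ≠ 0 := by positivity
    push_cast
    field_simp
    simp
  | succ b ih =>
    have h1 : (fun u : ℝ => (1 - u) ^ (b + 1) * u ^ a) =
        fun u => (1 - u) ^ b * u ^ a - (1 - u) ^ b * u ^ (a + 1) := by
      funext u; ring
    rw [h1, intervalIntegral.integral_sub
      (Continuous.intervalIntegrable (by fun_prop) _ _)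
      (Continuous.intervalIntegrable (by fun_prop) _ _), ih a, ih (a + 1)]
    rw [show a + 1 + b + 1 = (a + b + 1) + 1 by ring, show a + (b + 1) + 1 = (a + b + 1) + 1 by ring]
    rw [Nat.factorial_succ (a + b + 1), Nat.factorial_succ a, Nat.factorial_succ b]
    have hf : (((a + b + 1).factorial : ℕ) : ℝ) ≠ 0 := by
      exact_mod_cast Nat.factorial_ne_zero (a + b + 1)
    have h2 : ((a : ℝ) + b + 1 + 1) ≠ 0 := by positivity
    push_cast
    field_simp
    ring

private lemma P05_taylor (Q : ℝ[X]) (n : ℕ) (hn : Q.natDegree < n) (t z : ℝ) :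
    Q.eval (t + z) = ∑ i ∈ range n, (derivative^[i] Q).eval t / (i.factorial : ℝ) * z ^ i := by
  have h1 : Q.eval (t + z) = (taylor t Q).eval z := by
    rw [taylor_eval, add_comm]
  rw [h1, eval_eq_sum_range' (by rw [natDegree_taylor]; exact hn)]
  refine Finset.sum_congr rfl fun i _ => ?_
  rw [taylor_coeff]
  congr 1
  have hf : ((i.factorial : ℕ) : ℝ) ≠ 0 := by exact_mod_cast Nat.factorial_ne_zero i
  rw [eq_div_iff hf]
  have h2 : ((i.factorial • hasseDeriv i : ℝ[X] →ₗ[ℝ] ℝ[X]) Q).eval t =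
      (derivative^[i] Q).eval t := by
    have := congrFun (factorial_smul_hasseDeriv (R := ℝ) i) Q
    exact congrArg (fun R => R.eval t) this
  rw [← h2, LinearMap.smul_apply, eval_smul, nsmul_eq_mul, mul_comm]

/-- With `Q = B^2`, `h i = Q^(i)(t)/i!` (so `derivative^[i] Q = i! hasse`), the sum is
`(2k+K-1)!/(K-1)! * ∫_0^1 (1-u)^(K-1) ∑_i h i (-y)^i u^(2k-1-i) du`, and
`∑_i h i (-y)^i u^(2k-1-i) = u^(2k-1) Q(t - y/u)` for `0 < u` (Taylor; `natDegree Q ≤ 2k-2`), which is
`≥ 0`, and `> 0` for some `u` (`B` has finitely many zeros, `y ≠ 0`). Use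
`intervalIntegral.integral_pos`. -/
theorem Z_pos (K k : ℕ) (hK : 1 ≤ K) (hk : 1 ≤ k) (B : ℝ[X]) (hB : B ≠ 0)
    (hd : B.natDegree < k) (t y : ℝ) (hy : y ≠ 0) :
    0 < ∑ i ∈ range (2 * k - 1), ((2 * k + K - 1).choose i : ℝ) *
      ((derivative^[i] (B ^ 2)).eval t * ((2 * k - 1 - i).factorial : ℝ) * (-y) ^ i) := by
  have hQ : (B ^ 2).natDegree < 2 * k - 1 := by
    have := natDegree_pow B 2
    rw [this]; omega
  set h : ℕ → ℝ := fun i => (derivative^[i] (B ^ 2)).eval t / (i.factorial : ℝ) with hh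
  set F : ℝ → ℝ := fun u => ∑ i ∈ range (2 * k - 1),
    h i * (-y) ^ i * ((1 - u) ^ (K - 1) * u ^ (2 * k - 1 - i)) with hF
  have hFc : Continuous F := by
    rw [hF]; fun_prop
  have hval : ∀ u : ℝ, 0 < u → F u = (1 - u) ^ (K - 1) * (u ^ (2 * k - 1) *
      (B.eval (t + -(y / u))) ^ 2) := by
    intro u hu
    have h1 := P05_taylor (B ^ 2) (2 * k - 1) hQ t (-(y / u))
    rw [eval_pow] at h1
    rw [h1, Finset.mul_sum, Finset.mul_sum]
    refine Finset.sum_congr rfl fun i hi => ?_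
    have hi' : i < 2 * k - 1 := Finset.mem_range.1 hi
    have h2 : u ^ (2 * k - 1) = u ^ (2 * k - 1 - i) * u ^ i := by
      rw [← pow_add]; congr 1; omega
    rw [h2]
    have h3 : (-(y / u)) ^ i = (-y) ^ i / u ^ i := by
      rw [← div_pow]; congr 1; ring
    rw [h3, hh]
    have hui : u ^ i ≠ 0 := by positivity
    field_simp
  have hpos : 0 < ∫ u in (0 : ℝ)..1, F u := by
    refine intervalIntegral.integral_pos zero_lt_one hFc.continuousOn ?_ ?_
    · intro u hu
      rw [hval u hu.1]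
      have : 0 ≤ 1 - u := by linarith [hu.2]
      have := hu.1
      positivity
    · have hinf : (Set.Ioo (0 : ℝ) 1).Infinite := Set.Ioo_infinite zero_lt_one
      have hfin : {u : ℝ | u ∈ Set.Ioo (0 : ℝ) 1 ∧ B.eval (t + -(y / u)) = 0}.Finite := by
        refine Set.Finite.of_finite_image (f := fun u : ℝ => t + -(y / u)) ?_ ?_
        · refine (B.rootSet_finite ℝ).subset ?_
          rintro _ ⟨u, hu, rfl⟩
          rw [mem_rootSet]
          exact ⟨hB, by simpa using hu.2⟩
        · intro u hu v hv huv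
          have hu0 : u ≠ 0 := (hu.1.1).ne'
          have hv0 : v ≠ 0 := (hv.1.1).ne'
          simp only [add_right_inj, neg_inj] at huv
          rw [div_eq_div_iff hu0 hv0] at huv
          exact (mul_left_cancel₀ hy huv).symm
      obtain ⟨u, hu, hu2⟩ := hinf.exists_notMem_finite hfin
      refine ⟨u, ⟨hu.1.le, hu.2.le⟩, ?_⟩
      rw [hval u hu.1]
      have h1 : 0 < 1 - u := by linarith [hu.2]
      have h2 : B.eval (t + -(y / u)) ≠ 0 := fun h0 => hu2 ⟨hu, h0⟩
      have := hu.1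
      positivity
  have hint : ∫ u in (0 : ℝ)..1, F u = ∑ i ∈ range (2 * k - 1), h i * (-y) ^ i *
      (((K - 1).factorial : ℝ) * (2 * k - 1 - i).factorial / (2 * k - 1 - i + (K - 1) + 1).factorial) := by
    rw [hF, intervalIntegral.integral_finsetSum]
    · refine Finset.sum_congr rfl fun i _ => ?_
      rw [intervalIntegral.integral_const_mul, beta]
    · intro i _
      exact Continuous.intervalIntegrable (by fun_prop) _ _
  have hkey : ∑ i ∈ range (2 * k - 1), ((2 * k + K - 1).choose i : ℝ) *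
      ((derivative^[i] (B ^ 2)).eval t * ((2 * k - 1 - i).factorial : ℝ) * (-y) ^ i) =
      ((2 * k + K - 1).factorial : ℝ) / ((K - 1).factorial : ℝ) * ∫ u in (0 : ℝ)..1, F u := by
    rw [hint, Finset.mul_sum]
    refine Finset.sum_congr rfl fun i hi => ?_
    have hi' : i < 2 * k - 1 := Finset.mem_range.1 hi
    have h1 : 2 * k - 1 - i + (K - 1) + 1 = 2 * k + K - 1 - i := by omega
    rw [h1, Nat.cast_choose ℝ (show i ≤ 2 * k + K - 1 by omega), hh]
    have f1 : ((i.factorial : ℕ) : ℝ) ≠ 0 := by exact_mod_cast Nat.factorial_ne_zero _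
    have f2 : (((K - 1).factorial : ℕ) : ℝ) ≠ 0 := by exact_mod_cast Nat.factorial_ne_zero _
    have f3 : (((2 * k + K - 1 - i).factorial : ℕ) : ℝ) ≠ 0 := by
      exact_mod_cast Nat.factorial_ne_zero _
    field_simp
  rw [hkey]
  have f1 : (0 : ℝ) < ((2 * k + K - 1).factorial : ℝ) := by exact_mod_cast Nat.factorial_pos _
  have f2 : (0 : ℝ) < ((K - 1).factorial : ℝ) := by exact_mod_cast Nat.factorial_pos _
  exact mul_pos (div_pos f1 f2) hpos

end Pool.Agent.LibTri68P
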