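import Pool.Agent.LibTri68P.P01
import Pool.Agent.LibTri68P.P05

open Filter Topology Polynomial Finset
open Pool.Agent.LibTri77

namespace Pool.Agent.LibTri68P

/-- the local factor at the pole `y` -/
private noncomputable def p06Z (K k : ℕ) (B : ℝ[X]) (t y : ℝ) : ℝ :=
  ∑ i ∈ range (2 * k - 1), ((2 * k + K - 1).choose i : ℝ) *
      ((derivative^[i] (B ^ 2)).eval t * ((2 * k - 1 - i).factorial : ℝ) * (-y) ^ i)

private theorem p06_term (K k : ℕ) (B : ℝ[X]) (t y : ℝ) (hy : y ≠ 0) :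
    ∑ i ∈ range (2 * k - 1), ((2 * k + K - 1).choose i : ℝ) *
      ((derivative^[i] (B ^ 2)).eval t * ((-1) ^ i * ((2 * k - 1 - i).factorial : ℝ)))
        * (1 / y ^ (2 * k - i)) = p06Z K k B t y / y ^ (2 * k) := by
  unfold p06Z
  rw [Finset.sum_div]
  refine Finset.sum_congr rfl fun i hi => ?_
  rw [mem_range] at hi
  have h1 : y ^ (2 * k) = y ^ (2 * k - i) * y ^ i := by
    rw [← pow_add]
    congr 1
    omega
  have h2 : y ^ (2 * k - i) ≠ 0 := pow_ne_zero _ hy
  have h3 : y ^ i ≠ 0 := pow_ne_zero _ hy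
  rw [h1, neg_pow y i]
  field_simp

/-- ROW P06. In `mulS (B^2) D (2k+K-1) t` the terms `i ≥ 2k-1` vanish (degree), and for `i ≤ 2k-2`,
`2k+K-1-i = K+1+(2k-2-i)`, so `D` is given by `hD2`; `(-1)^(2k-2-i) = (-1)^i`. The sum becomes
`(2/q)^(K-1)/π` times the sum over all poles `y` (`y = t` and `y = t ± q(n+1)`) of `(1/y^(2k)) Z(y)`, `Z(y)` the
sum of `Z_pos` (write `1/y^(2k-i) = y^i / y^(2k)`); everything is summable by `S_summable`. -/
theorem main_pos (K k : ℕ) (hK : 2 ≤ K) (hk : 1 ≤ k) (q : ℝ) (hq : 0 < q) (D : ℕ → ℝ → ℝ)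
    (hD2 : ∀ m t, 0 < t → t < q → D (K + 1 + m) t =
        (2 / q) ^ (K - 1) / Real.pi * ((-1) ^ m * ((m + 1).factorial : ℝ) * S q (m + 2) t))
    (B : ℝ[X]) (hB : B ≠ 0) (hd : B.natDegree < k) (t : ℝ) (h0 : 0 < t) (h1 : t < q) :
    0 < mulS (B ^ 2) D (2 * k + K - 1) t := by
  have hZ : ∀ y : ℝ, y ≠ 0 → 0 < p06Z K k B t y := fun y hy =>
    Z_pos K k (by omega) hk B hB hd t y hy
  have hF : ∀ y : ℝ, y ≠ 0 → 0 < p06Z K k B t y / y ^ (2 * k) := by
    intro y hy
    refine div_pos (hZ y hy) ?_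
    rw [pow_mul]
    exact pow_pos (by positivity) k
  have hdeg : (B ^ 2).natDegree < 2 * k - 1 := by
    rw [natDegree_pow]
    omega
  -- the sum has only `2k - 1` terms
  have e1 : mulS (B ^ 2) D (2 * k + K - 1) t
      = ∑ i ∈ range (2 * k - 1), ((2 * k + K - 1).choose i : ℝ) *
        ((derivative^[i] (B ^ 2)).eval t * D (2 * k + K - 1 - i) t) := by
    unfold mulS
    symm
    refine Finset.sum_subset (fun i hi => ?_) (fun i _ hi => ?_)
    · rw [mem_range] at hi ⊢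
      omega
    · rw [mem_range, not_lt] at hi
      rw [iterate_derivative_eq_zero (lt_of_lt_of_le hdeg hi)]
      simp
  -- the derivatives of `D`
  have e2 : mulS (B ^ 2) D (2 * k + K - 1) t
      = (2 / q) ^ (K - 1) / Real.pi * ∑ i ∈ range (2 * k - 1), ((2 * k + K - 1).choose i : ℝ) *
        ((derivative^[i] (B ^ 2)).eval t * ((-1) ^ i * ((2 * k - 1 - i).factorial : ℝ)))
          * S q (2 * k - i) t := by
    rw [e1, Finset.mul_sum]
    refine Finset.sum_congr rfl fun i hi => ?_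
    rw [mem_range] at hi
    have h2 : 2 * k + K - 1 - i = K + 1 + (2 * k - 2 - i) := by omega
    have h3 : 2 * k - 2 - i + 1 = 2 * k - 1 - i := by omega
    have h4 : 2 * k - 2 - i + 2 = 2 * k - i := by omega
    have h5 : (-1 : ℝ) ^ (2 * k - 2 - i) = (-1) ^ i := by
      have h6 : (-1 : ℝ) ^ (2 * k - 2 - i) * (-1) ^ i = 1 := by
        rw [← pow_add, show 2 * k - 2 - i + i = 2 * (k - 1) by omega, pow_mul]
        simp
      have h7 : (-1 : ℝ) ^ i * (-1) ^ i = 1 := by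
        rw [← pow_add, ← two_mul, pow_mul]
        simp
      have h8 : (-1 : ℝ) ^ i ≠ 0 := pow_ne_zero _ (by norm_num)
      exact mul_right_cancel₀ h8 (h6.trans h7.symm)
    rw [h2, hD2 _ t h0 h1, h3, h4, h5]
    ring
  -- the sum over the poles
  have e3 : ∑ i ∈ range (2 * k - 1), ((2 * k + K - 1).choose i : ℝ) *
        ((derivative^[i] (B ^ 2)).eval t * ((-1) ^ i * ((2 * k - 1 - i).factorial : ℝ)))
          * S q (2 * k - i) t
      = p06Z K k B t t / t ^ (2 * k) + ∑' n : ℕ,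
        (p06Z K k B t (t + -(q * ((n : ℝ) + 1))) / (t + -(q * ((n : ℝ) + 1))) ^ (2 * k)
          + p06Z K k B t (t + q * ((n : ℝ) + 1)) / (t + q * ((n : ℝ) + 1)) ^ (2 * k)) := by
    have hsum : ∀ i ∈ range (2 * k - 1), Summable (fun n : ℕ =>
        ((2 * k + K - 1).choose i : ℝ) *
        ((derivative^[i] (B ^ 2)).eval t * ((-1) ^ i * ((2 * k - 1 - i).factorial : ℝ))) *
        (1 / (t + -(q * ((n : ℝ) + 1))) ^ (2 * k - i)
          + 1 / (t + q * ((n : ℝ) + 1)) ^ (2 * k - i))) := by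
      intro i hi
      rw [mem_range] at hi
      exact (S_summable q (2 * k - i) t (by omega) h0 h1).mul_left _
    have h2 : ∀ n : ℕ,
        p06Z K k B t (t + -(q * ((n : ℝ) + 1))) / (t + -(q * ((n : ℝ) + 1))) ^ (2 * k)
          + p06Z K k B t (t + q * ((n : ℝ) + 1)) / (t + q * ((n : ℝ) + 1)) ^ (2 * k)
        = ∑ i ∈ range (2 * k - 1), ((2 * k + K - 1).choose i : ℝ) *
        ((derivative^[i] (B ^ 2)).eval t * ((-1) ^ i * ((2 * k - 1 - i).factorial : ℝ))) *
        (1 / (t + -(q * ((n : ℝ) + 1))) ^ (2 * k - i)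
          + 1 / (t + q * ((n : ℝ) + 1)) ^ (2 * k - i)) := by
      intro n
      have hn : (0 : ℝ) ≤ n := Nat.cast_nonneg n
      have hqn : 0 ≤ q * n := by positivity
      have hy1 : t + -(q * ((n : ℝ) + 1)) ≠ 0 := by
        have : t + -(q * ((n : ℝ) + 1)) < 0 := by nlinarith
        exact this.ne
      have hy2 : t + q * ((n : ℝ) + 1) ≠ 0 := by positivity
      rw [← p06_term K k B t _ hy1, ← p06_term K k B t _ hy2, ← Finset.sum_add_distrib]
      refine Finset.sum_congr rfl fun i _ => ?_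
      ring
    rw [tsum_congr h2, Summable.tsum_finsetSum hsum, ← p06_term K k B t t h0.ne',
      ← Finset.sum_add_distrib]
    refine Finset.sum_congr rfl fun i hi => ?_
    rw [tsum_mul_left]
    unfold S
    ring
  rw [e2, e3]
  refine mul_pos (by positivity) (add_pos_of_pos_of_nonneg (hF t h0.ne') (tsum_nonneg fun n => ?_))
  have hn : (0 : ℝ) ≤ n := Nat.cast_nonneg n
  have hqn : 0 ≤ q * n := by positivity
  have hy1 : t + -(q * ((n : ℝ) + 1)) ≠ 0 := by
    have : t + -(q * ((n : ℝ) + 1)) < 0 := by nlinarith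
    exact this.ne
  have hy2 : t + q * ((n : ℝ) + 1) ≠ 0 := by positivity
  exact add_nonneg (hF _ hy1).le (hF _ hy2).le

end Pool.Agent.LibTri68P
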