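import Pool.Agent.LibTri68P.P03
import Pool.Agent.LibTri68P.P04
import Pool.Agent.LibTri68P.P06

open Filter Topology Polynomial Finset
open Pool.Agent.LibTri77

namespace Pool.Agent.LibTri68P

private theorem p07_inj (N : ℕ) (x : ℕ → ℝ) (hx : ∀ i, i + 1 < N → x i < x (i + 1)) :
    ∀ i j, i < j → j < N → x i < x j := by
  intro i j hij
  induction j, hij using Nat.le_induction with
  | base => intro h; exact hx i h
  | succ j hj ih =>
    intro h
    exact (ih (by omega)).trans (hx j h)

/-- ROW P07. If `B ≠ 0` apply `rolle_gen` (with `n = 2k+K-1`) to the chain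
`fun n t => (derivative^[n] (B*A + B^2*P)).eval t + mulS (B^2) D n t` (`chain_add_poly`, `mulS_chain`), `D` from
`exists_D`; its value at `x i` for `n = 0` is `B (A + B (g + P)) = 0`; the polynomial part of order
`2k+K-1` vanishes (`iterate_derivative_eq_zero`); contradiction to `main_pos`. If `B = 0` then `A` has
`2k+K > natDegree A` zeros. -/
theorem nonvanish (K k : ℕ) (hK : 2 ≤ K) (hk : 1 ≤ k) (q : ℝ) (hq : 0 < q) (P A B : ℝ[X])
    (hP : P.natDegree ≤ K) (hA : A.natDegree < k + K) (hB : B.natDegree < k) (x : ℕ → ℝ)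
    (hx : ∀ i, i + 1 < 2 * k + K → x i < x (i + 1)) (h0 : 0 < x 0)
    (h1 : x (2 * k + K - 1) < q)
    (h : ∀ i, i < 2 * k + K → A.eval (x i) + B.eval (x i) * (gq K q (x i) + P.eval (x i)) = 0) :
    A = 0 ∧ B = 0 := by
  classical
  by_cases hB0 : B = 0
  · refine ⟨?_, hB0⟩
    have hinj : Set.InjOn x (range (2 * k + K) : Finset ℕ) := by
      intro i hi j hj hij
      rw [Finset.mem_coe, mem_range] at hi hj
      rcases lt_trichotomy i j with hlt | heq | hgt
      · exact absurd hij (p07_inj _ x hx i j hlt hj).ne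
      · exact heq
      · exact absurd hij.symm (p07_inj _ x hx j i hgt hi).ne
    refine eq_zero_of_natDegree_lt_card_of_eval_eq_zero' A ((range (2 * k + K)).image x) ?_ ?_
    · intro y hy
      obtain ⟨i, hi, rfl⟩ := mem_image.1 hy
      have h2 := h i (mem_range.1 hi)
      rw [hB0] at h2
      simpa using h2
    · rw [card_image_of_injOn hinj, card_range]
      omega
  · exfalso
    obtain ⟨D, hD0, hDc, hD2⟩ := exists_D K hK q hq
    have hch : Chain (fun n t => (derivative^[n] (B * A + B ^ 2 * P)).eval t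
        + mulS (B ^ 2) D n t) 0 q :=
      chain_add_poly _ _ 0 q (mulS_chain _ _ 0 q hDc)
    have hz : ∀ i, i ≤ 2 * k + K - 1 → (fun n t => (derivative^[n] (B * A + B ^ 2 * P)).eval t
        + mulS (B ^ 2) D n t) 0 (x i) = 0 := by
      intro i hi
      have h2 := h i (by omega)
      have h3 : mulS (B ^ 2) D 0 (x i) = (B ^ 2).eval (x i) * gq K q (x i) := by
        unfold mulS
        simp [hD0]
      simp only [Function.iterate_zero, id_eq, h3, eval_add, eval_mul, eval_pow]
      calc B.eval (x i) * A.eval (x i) + B.eval (x i) ^ 2 * P.eval (x i)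
            + B.eval (x i) ^ 2 * gq K q (x i)
          = B.eval (x i) * (A.eval (x i) + B.eval (x i) * (gq K q (x i) + P.eval (x i))) := by ring
        _ = 0 := by rw [h2, mul_zero]
    obtain ⟨ξ, hξ1, hξ2, hξ⟩ := rolle_gen (2 * k + K - 1) _ 0 q hch x
      (fun i hi => hx i (by omega)) h0 h1 hz
    have hdeg : (B * A + B ^ 2 * P).natDegree < 2 * k + K - 1 := by
      have h2 : (B * A).natDegree ≤ 2 * k + K - 2 := by
        refine natDegree_mul_le.trans ?_
        omega
      have h3 : (B ^ 2 * P).natDegree ≤ 2 * k + K - 2 := by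
        refine natDegree_mul_le.trans ?_
        rw [natDegree_pow]
        omega
      have h4 := natDegree_add_le_of_degree_le h2 h3
      omega
    simp only [iterate_derivative_eq_zero hdeg, eval_zero, zero_add] at hξ
    have := main_pos K k hK hk q hq D hD2 B hB0 hB ξ (lt_of_lt_of_le h0 hξ1)
      (lt_of_le_of_lt hξ2 h1)
    exact this.ne' hξ

end Pool.Agent.LibTri68P
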