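import Pool.Agent.LibTri68P.PDefs

open Filter Topology Polynomial Finset
open Pool.Agent.LibTri77

namespace Pool.Agent.LibTri68P

/-- ROW P08. Facts on `bp`. (`Nat.cast` of `choose`: e.g. `descPochhammer_eval_eq_prod_range` and
`descPochhammer_eval_eq_descFactorial`, `Nat.descFactorial_eq_factorial_mul_choose`.) -/
theorem bp_eval (j₀ j i : ℕ) (h : j₀ ≤ j) :
    (bp (j₀ : ℝ) i).eval (j : ℝ) = ((j - j₀).choose i : ℝ) := by
  have h1 : ∏ l ∈ range i, ((j : ℝ) - ((j₀ : ℝ) + l)) = ((j - j₀).descFactorial i : ℝ) := by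
    rw [← descPochhammer_eval_eq_descFactorial, descPochhammer_eval_eq_prod_range]
    apply Finset.prod_congr rfl
    intro l _
    rw [Nat.cast_sub h]
    ring
  have h2 : (bp (j₀ : ℝ) i).eval (j : ℝ)
      = 1 / (i.factorial : ℝ) * ∏ l ∈ range i, ((j : ℝ) - ((j₀ : ℝ) + l)) := by
    unfold bp
    rw [eval_mul, eval_C, eval_prod]
    simp only [eval_sub, eval_X, eval_C]
  rw [h2, h1, Nat.descFactorial_eq_factorial_mul_choose]
  have h3 : (i.factorial : ℝ) ≠ 0 := by exact_mod_cast i.factorial_ne_zero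
  push_cast
  field_simp

private theorem P08_monic (a : ℝ) (i : ℕ) : (∏ l ∈ range i, (X - C (a + (l : ℝ)))).Monic :=
  monic_prod_of_monic _ _ fun _ _ => monic_X_sub_C _

private theorem P08_deg (a : ℝ) (i : ℕ) : (∏ l ∈ range i, (X - C (a + (l : ℝ)))).natDegree = i := by
  rw [natDegree_prod_of_monic _ _ fun _ _ => monic_X_sub_C _]
  simp only [natDegree_X_sub_C, sum_const, card_range, smul_eq_mul, mul_one]

private theorem P08_ne (i : ℕ) : (1 / (i.factorial : ℝ)) ≠ 0 := by
  have h3 : (i.factorial : ℝ) ≠ 0 := by exact_mod_cast i.factorial_ne_zero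
  positivity

theorem bp_natDegree (a : ℝ) (i : ℕ) : (bp a i).natDegree = i := by
  unfold bp
  rw [natDegree_C_mul (P08_ne i), P08_deg]

/-- the `i`-th derivative of `bp a i` is `1` -/
theorem bp_deriv (a : ℝ) (i : ℕ) : derivative^[i] (bp a i) = 1 := by
  ext m
  rw [coeff_iterate_derivative, coeff_one]
  rcases Nat.eq_zero_or_pos m with rfl | hm
  · have h1 : (bp a i).coeff (0 + i) = 1 / (i.factorial : ℝ) := by
      unfold bp
      rw [coeff_C_mul, zero_add]
      have h2 := P08_monic a i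
      have h3 := h2.coeff_natDegree
      rw [P08_deg] at h3
      rw [h3, mul_one]
    rw [h1, zero_add, Nat.descFactorial_self, if_pos rfl, nsmul_eq_mul]
    have h3 : (i.factorial : ℝ) ≠ 0 := by exact_mod_cast i.factorial_ne_zero
    field_simp
  · rw [coeff_eq_zero_of_natDegree_lt (by rw [bp_natDegree]; omega), smul_zero,
      if_neg (by omega)]

/-- evaluate at `j₀ + i`, strong induction on `i` -/
theorem bp_indep (j₀ m : ℕ) (v : ℕ → ℝ) (h : ∑ i ∈ range m, C (v i) * bp (j₀ : ℝ) i = 0) :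
    ∀ i, i < m → v i = 0 := by
  intro i
  induction i using Nat.strong_induction_on with
  | _ i ih =>
    intro hi
    have h1 := congrArg (eval (((j₀ + i : ℕ)) : ℝ)) h
    rw [eval_finsetSum, eval_zero] at h1
    have h2 : ∀ l ∈ range m, eval (((j₀ + i : ℕ)) : ℝ) (C (v l) * bp (j₀ : ℝ) l)
        = v l * (i.choose l : ℝ) := by
      intro l _
      rw [eval_mul, eval_C, bp_eval j₀ (j₀ + i) l (by omega), Nat.add_sub_cancel_left]
    rw [Finset.sum_congr rfl h2, Finset.sum_eq_single i] at h1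
    · rw [Nat.choose_self, Nat.cast_one, mul_one] at h1
      exact h1
    · intro l hl hne
      rcases lt_or_gt_of_ne hne with h3 | h3
      · rw [ih l h3 (by omega), zero_mul]
      · rw [Nat.choose_eq_zero_of_lt h3, Nat.cast_zero, mul_zero]
    · intro h3
      exact absurd (mem_range.mpr hi) h3

end Pool.Agent.LibTri68P
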