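import Pool.Agent.LibTri68P.P07
import Pool.Agent.LibTri68P.P08

open Filter Topology Polynomial Finset
open Pool.Agent.LibTri77

namespace Pool.Agent.LibTri68P

/-- ROW P09. The determinant is not zero: otherwise `Matrix.exists_mulVec_eq_zero_iff` gives `v ≠ 0`;
`A = ∑ v_i bp a i` (`i < k+K`), `B = ∑ v_(k+K+l) bp a l` (`l < k`), `nonvanish`, `bp_indep`. -/
theorem det_ne_zero (K k : ℕ) (hK : 2 ≤ K) (hk : 1 ≤ k) (q : ℝ) (hq : 0 < q) (P : ℝ[X])
    (hP : P.natDegree ≤ K) (j₀ : ℕ) (x : ℕ → ℝ)
    (hx : ∀ i, i + 1 < 2 * k + K → x i < x (i + 1)) (h0 : 0 < x 0)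
    (h1 : x (2 * k + K - 1) < q) :
    (Mx (k + K) k (j₀ : ℝ) x (fun i => gq K q (x i) + P.eval (x i))).det ≠ 0 := by
  intro hdet
  obtain ⟨v, hv0, hv⟩ := Matrix.exists_mulVec_eq_zero_iff.mpr hdet
  set w : ℕ → ℝ := fun i => if h : i < k + K + k then v ⟨i, h⟩ else 0 with hw
  set A : ℝ[X] := ∑ i ∈ range (k + K), C (w i) * bp (j₀ : ℝ) i with hA
  set B : ℝ[X] := ∑ l ∈ range k, C (w (k + K + l)) * bp (j₀ : ℝ) l with hB
  have hdeg : ∀ (c : ℝ) (i : ℕ), (C c * bp (j₀ : ℝ) i).natDegree ≤ i := by
    intro c i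
    refine (natDegree_C_mul_le _ _).trans ?_
    rw [bp_natDegree]
  have hAd : A.natDegree < k + K := by
    have h2 : A.natDegree ≤ k + K - 1 := by
      apply natDegree_sum_le_of_forall_le
      intro i hi
      have h3 := mem_range.mp hi
      exact (hdeg _ _).trans (by omega)
    omega
  have hBd : B.natDegree < k := by
    have h2 : B.natDegree ≤ k - 1 := by
      apply natDegree_sum_le_of_forall_le
      intro i hi
      have h3 := mem_range.mp hi
      exact (hdeg _ _).trans (by omega)
    omega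
  have hval : ∀ i, i < 2 * k + K →
      A.eval (x i) + B.eval (x i) * (gq K q (x i) + P.eval (x i)) = 0 := by
    intro i hi
    have hi' : i < k + K + k := by omega
    have h2 := congrFun hv ⟨i, hi'⟩
    rw [Matrix.mulVec, dotProduct, Pi.zero_apply] at h2
    have h3 : ∑ c : Fin (k + K + k), Mx (k + K) k (j₀ : ℝ) x
          (fun i => gq K q (x i) + P.eval (x i)) ⟨i, hi'⟩ c * v c
        = ∑ c ∈ range (k + K + k), (if c < k + K then (bp (j₀ : ℝ) c).eval (x i) else
            (bp (j₀ : ℝ) (c - (k + K))).eval (x i) * (gq K q (x i) + P.eval (x i))) * w c := by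
      rw [← Fin.sum_univ_eq_sum_range]
      apply Finset.sum_congr rfl
      intro c _
      have h4 : w c = v c := by
        rw [hw]
        simp only
        rw [dif_pos c.isLt]
      rw [h4]
      rfl
    rw [h3, Finset.sum_range_add] at h2
    have h5 : ∑ c ∈ range (k + K), (if c < k + K then (bp (j₀ : ℝ) c).eval (x i) else
            (bp (j₀ : ℝ) (c - (k + K))).eval (x i) * (gq K q (x i) + P.eval (x i))) * w c
        = A.eval (x i) := by
      rw [hA, eval_finsetSum]
      apply Finset.sum_congr rfl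
      intro c hc
      rw [if_pos (mem_range.mp hc), eval_mul, eval_C, mul_comm]
    have h6 : ∑ c ∈ range k, (if k + K + c < k + K then (bp (j₀ : ℝ) (k + K + c)).eval (x i) else
            (bp (j₀ : ℝ) (k + K + c - (k + K))).eval (x i) * (gq K q (x i) + P.eval (x i)))
              * w (k + K + c)
        = B.eval (x i) * (gq K q (x i) + P.eval (x i)) := by
      rw [hB, eval_finsetSum, Finset.sum_mul]
      apply Finset.sum_congr rfl
      intro c _
      rw [if_neg (by omega), eval_mul, eval_C, Nat.add_sub_cancel_left]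
      ring
    rw [h5, h6] at h2
    exact h2
  obtain ⟨hA0, hB0⟩ := nonvanish K k hK hk q hq P A B hP hAd hBd x hx h0 h1 hval
  have hwA := bp_indep j₀ (k + K) w hA0
  have hwB := bp_indep j₀ k (fun l => w (k + K + l)) hB0
  apply hv0
  funext c
  have h4 : w c = v c := by
    rw [hw]
    simp only
    rw [dif_pos c.isLt]
  rw [← h4, Pi.zero_apply]
  by_cases hc : (c : ℕ) < k + K
  · exact hwA c hc
  · have h5 := hwB (c - (k + K)) (by have := c.isLt; omega)
    have h6 : k + K + ((c : ℕ) - (k + K)) = c := by omega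
    rw [h6] at h5
    exact h5

end Pool.Agent.LibTri68P
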