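import Pool.Agent.LibTri68P.P04

open Filter Topology Polynomial Finset
open Pool.Agent.LibTri77

namespace Pool.Agent.LibTri68P

private theorem p10_lt (N : ℕ) (x : ℕ → ℝ) (hx : ∀ i, i + 1 < N → x i < x (i + 1)) (a b : ℕ)
    (hab : a < b) (hb : b < N) : x a < x b := by
  obtain ⟨k, rfl⟩ : ∃ k, b = a + 1 + k := ⟨b - (a + 1), by omega⟩
  clear hab
  induction k with
  | zero => exact hx a (by omega)
  | succ k ih => exact (ih (by omega)).trans (hx (a + 1 + k) (by omega))

private theorem p10_zero (x : ℕ → ℝ) (s i : ℕ) (h : i < s) : nw x s (x i) = 0 := by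
  unfold nw
  exact Finset.prod_eq_zero (Finset.mem_range.mpr h) (sub_self _)

/-- ROW P10. Newton coefficients exist (induction on `N`: the new function `nw x N` vanishes at
`x i`, `i < N`, and not at `x N`). -/
theorem newton_exists (N : ℕ) (x : ℕ → ℝ) (hx : ∀ i, i + 1 < N → x i < x (i + 1)) (y : ℕ → ℝ) :
    ∃ c : ℕ → ℝ, ∀ i, i < N → y i = ∑ s ∈ range N, c s * nw x s (x i) := by
  induction N with
  | zero => exact ⟨fun _ => 0, fun i hi => absurd hi (Nat.not_lt_zero _)⟩
  | succ N ih =>
    obtain ⟨c, hc⟩ := ih (fun i hi => hx i (by omega))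
    have hne : nw x N (x N) ≠ 0 := by
      unfold nw
      refine Finset.prod_ne_zero_iff.mpr (fun b hb => ?_)
      have := p10_lt (N + 1) x hx b N (Finset.mem_range.mp hb) (by omega)
      exact sub_ne_zero.mpr (ne_of_gt this)
    refine ⟨fun s => if s = N then (y N - ∑ s ∈ range N, c s * nw x s (x N)) / nw x N (x N)
      else c s, fun i hi => ?_⟩
    rw [Finset.sum_range_succ]
    have h1 : ∑ s ∈ range N, (if s = N then (y N - ∑ s ∈ range N, c s * nw x s (x N)) /
        nw x N (x N) else c s) * nw x s (x i) = ∑ s ∈ range N, c s * nw x s (x i) :=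
      Finset.sum_congr rfl (fun s hs => by
        rw [if_neg (by have := Finset.mem_range.mp hs; omega)])
    rw [h1]
    beta_reduce
    rw [if_pos rfl]
    rcases Nat.lt_or_ge i N with h | h
    · rw [p10_zero x N i h, mul_zero, add_zero]
      exact hc i h
    · have : i = N := by omega
      subst this
      rw [div_mul_cancel₀ _ hne]
      ring

/-- Mean value theorem for Newton coefficients: `f - ∑_{s ≤ r} c s nw x s` vanishes at
`x 0, …, x r`; `rolle_gen` with the polynomial `∑_{s ≤ r} C (c s) ∏_{b < s} (X - C (x b))`, whose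
`r`-th derivative is `r! c r`. (`nw x s (x i) = 0` for `i < s`.) -/
theorem newton_mvt (D : ℕ → ℝ → ℝ) (a b : ℝ) (hD : Chain D a b) (N r : ℕ) (hr : r < N)
    (x : ℕ → ℝ) (hx : ∀ i, i + 1 < N → x i < x (i + 1)) (ha : a < x 0) (hb : x (N - 1) < b)
    (c : ℕ → ℝ) (h : ∀ i, i < N → D 0 (x i) = ∑ s ∈ range N, c s * nw x s (x i)) :
    ∃ ξ, x 0 ≤ ξ ∧ ξ ≤ x r ∧ D r ξ = (r.factorial : ℝ) * c r := by
  obtain ⟨P, hP⟩ : ∃ P : ℝ[X], P = ∑ s ∈ range (r + 1), C (c s) * ∏ b ∈ range s, (X - C (x b)) :=
    ⟨_, rfl⟩
  have hPe : ∀ t, P.eval t = ∑ s ∈ range (r + 1), c s * nw x s t := by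
    intro t
    rw [hP, eval_finsetSum]
    refine Finset.sum_congr rfl (fun s _ => ?_)
    rw [eval_mul, eval_C, eval_prod]
    simp only [eval_sub, eval_X, eval_C]
    rfl
  have hdeg : ∀ s, (∏ b ∈ range s, (X - C (x b)) : ℝ[X]).natDegree = s := by
    intro s
    rw [natDegree_prod_of_monic _ _ (fun i _ => monic_X_sub_C _)]
    simp
  have hdP : (derivative^[r] P) = C ((r.factorial : ℝ) * c r) := by
    ext m
    rw [coeff_iterate_derivative, coeff_C]
    have hcoef : ∀ j, r ≤ j → P.coeff j = if j = r then c r else 0 := by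
      intro j hj
      rw [hP, finsetSum_coeff, Finset.sum_range_succ, Finset.sum_eq_zero, zero_add, coeff_C_mul]
      · by_cases hjr : j = r
        · subst hjr
          rw [if_pos rfl]
          have h1 : (∏ b ∈ range j, (X - C (x b)) : ℝ[X]).coeff j = 1 := by
            have h2 := (monic_prod_X_sub_C x (range j)).coeff_natDegree
            rw [hdeg j] at h2
            exact h2
          rw [h1, mul_one]
        · rw [if_neg hjr, coeff_eq_zero_of_natDegree_lt (by rw [hdeg]; omega), mul_zero]
      · intro s hs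
        have := Finset.mem_range.mp hs
        rw [coeff_C_mul, coeff_eq_zero_of_natDegree_lt (by rw [hdeg]; omega), mul_zero]
    rw [hcoef _ (by omega)]
    by_cases hm : m = 0
    · subst hm
      rw [if_pos (by omega), if_pos rfl, zero_add, Nat.descFactorial_self, nsmul_eq_mul]
    · rw [if_neg (by omega), if_neg hm, smul_zero]
  have hch := chain_add_poly (-P) D a b hD
  obtain ⟨ξ, h1, h2, h3⟩ := rolle_gen r _ a b hch x (fun i hi => hx i (by omega)) ha
    (by
      rcases Nat.lt_or_ge r (N - 1) with hlt | hge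
      · exact (p10_lt N x hx r (N - 1) hlt (by omega)).trans hb
      · have : r = N - 1 := by omega
        rw [this]; exact hb)
    (by
      intro i hi
      show (derivative^[0] (-P)).eval (x i) + D 0 (x i) = 0
      rw [Function.iterate_zero, id, eval_neg, hPe, h i (by omega)]
      have hsplit : ∑ s ∈ range N, c s * nw x s (x i) =
          ∑ s ∈ range (r + 1), c s * nw x s (x i) := by
        symm
        refine Finset.sum_subset (Finset.range_subset_range.mpr (by omega)) (fun s _ hs => ?_)
        have : ¬ s < r + 1 := fun hh => hs (Finset.mem_range.mpr hh)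
        rw [p10_zero x s i (by omega), mul_zero]
      rw [hsplit]
      ring)
  refine ⟨ξ, h1, h2, ?_⟩
  have h4 : (derivative^[r] (-P)).eval ξ + D r ξ = 0 := h3
  rw [Polynomial.iterate_derivative_neg, hdP, eval_neg, eval_C] at h4
  linarith

end Pool.Agent.LibTri68P
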