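import Pool.Agent.LibTri68P.PDefs

open Filter Topology Polynomial Finset
open Pool.Agent.LibTri77

namespace Pool.Agent.LibTri68P

/-- ROW P11. (induction on `l`) -/
theorem HS_chain (D : ℕ → ℝ → ℝ) (a u v : ℝ) (hD : Chain D u v) (l : ℕ) :
    Chain (HS D a l) u v := by
  induction l with
  | zero => exact hD
  | succ l ih =>
    intro n t ht1 ht2
    have h1 : HasDerivAt (fun t : ℝ => t - (a + l)) 1 t := (hasDerivAt_id t).sub_const _
    have h2 := h1.mul (ih n t ht1 ht2)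
    have h3 := (ih (n - 1) t ht1 ht2).const_mul (n : ℝ)
    have h4 := h2.add h3
    have e : HS D a (l + 1) (n + 1) t =
        1 * HS D a l n t + (t - (a + l)) * HS D a l (n + 1) t + n * HS D a l (n - 1 + 1) t := by
      show (t - (a + l)) * HS D a l (n + 1) t + ((n + 1 : ℕ) : ℝ) * HS D a l (n + 1 - 1) t = _
      rcases Nat.eq_zero_or_pos n with hn | hn
      · subst hn
        push_cast
        simp
        ring
      · have e1 : n - 1 + 1 = n := by omega
        have e2 : n + 1 - 1 = n := by omega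
        rw [e1, e2]
        push_cast
        ring
    rw [e]
    exact h4

theorem HS_zero (D : ℕ → ℝ → ℝ) (a : ℝ) (l : ℕ) (t : ℝ) :
    HS D a l 0 t = (∏ i ∈ range l, (t - (a + i))) * D 0 t := by
  induction l with
  | zero => simp [HS]
  | succ l ih =>
    show (t - (a + l)) * HS D a l 0 t + ((0 : ℕ) : ℝ) * HS D a l (0 - 1) t = _
    rw [ih, Finset.prod_range_succ]
    push_cast
    ring

/-- induction on `l`: `|HS (l+1) n| ≤ R |HS l n| + n |HS l (n-1)|` -/
theorem HS_bound (D : ℕ → ℝ → ℝ) (a R c t : ℝ) (K k : ℕ) (hK : 1 ≤ K) (hR : 0 < R) (hc : 0 ≤ c)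
    (hl : ∀ i : ℕ, i < k → |t - (a + i)| ≤ R)
    (hb : ∀ n, K + 1 ≤ n → |D n t| ≤ (n.factorial : ℝ) * (c / R ^ (n + 1 - K)))
    (l n : ℕ) (hlk : l ≤ k) (hn : K + 1 + l ≤ n) :
    |HS D a l n t| ≤ (n.factorial : ℝ) * (c * (2 * R) ^ l / R ^ (n + 1 - K)) := by
  induction l generalizing n with
  | zero =>
    rw [pow_zero, mul_one]
    exact hb n (by omega)
  | succ l ih =>
    have i1 := ih n (by omega) (by omega)
    have i2 := ih (n - 1) (by omega) (by omega)
    have h1 := hl l (by omega)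
    obtain ⟨m, rfl⟩ : ∃ m, n = m + 1 := ⟨n - 1, by omega⟩
    rw [Nat.add_sub_cancel] at i2
    show |(t - (a + l)) * HS D a l (m + 1) t + ((m + 1 : ℕ) : ℝ) * HS D a l (m + 1 - 1) t| ≤ _
    rw [Nat.add_sub_cancel]
    have hm0 : (0 : ℝ) ≤ ((m + 1 : ℕ) : ℝ) := Nat.cast_nonneg _
    have hpow : R ^ (m + 1 + 1 - K) = R ^ (m + 1 - K) * R := by
      rw [← pow_succ]
      congr 1
      omega
    have hRm : 0 < R ^ (m + 1 - K) := pow_pos hR _
    have hfac : (((m + 1).factorial : ℕ) : ℝ) = ((m + 1 : ℕ) : ℝ) * (m.factorial : ℝ) := by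
      rw [Nat.factorial_succ]; push_cast; ring
    calc |(t - (a + l)) * HS D a l (m + 1) t + ((m + 1 : ℕ) : ℝ) * HS D a l m t|
        ≤ |(t - (a + l)) * HS D a l (m + 1) t| + |((m + 1 : ℕ) : ℝ) * HS D a l m t| :=
          abs_add_le _ _
      _ = |t - (a + l)| * |HS D a l (m + 1) t| + ((m + 1 : ℕ) : ℝ) * |HS D a l m t| := by
          rw [abs_mul, abs_mul, abs_of_nonneg hm0]
      _ ≤ R * (((m + 1).factorial : ℝ) * (c * (2 * R) ^ l / R ^ (m + 1 + 1 - K))) +
          ((m + 1 : ℕ) : ℝ) * ((m.factorial : ℝ) * (c * (2 * R) ^ l / R ^ (m + 1 - K))) :=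
          add_le_add (mul_le_mul h1 i1 (abs_nonneg _) hR.le) (mul_le_mul_of_nonneg_left i2 hm0)
      _ = ((m + 1).factorial : ℝ) * (c * (2 * R) ^ (l + 1) / R ^ (m + 1 + 1 - K)) := by
          rw [hpow, hfac, pow_succ]
          field_simp
          ring

end Pool.Agent.LibTri68P
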