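import Pool.Agent.LibTri68P.PDefs

open Filter Topology Polynomial Finset
open Pool.Agent.LibTri77

namespace Pool.Agent.LibTri68P

private lemma P12_nw_zero (x : ℕ → ℝ) (s r : ℕ) (h : r < s) : nw x s (x r) = 0 := by
  unfold nw
  exact Finset.prod_eq_zero (Finset.mem_range.2 h) (sub_self _)

private lemma P12_detT (N : ℕ) (x : ℕ → ℝ) (W : ℝ)
    (hW : ∀ i j, i < j → j < N → 0 ≤ x j - x i ∧ x j - x i ≤ W) :
    |(Matrix.of fun r s : Fin N => nw x s (x r)).det| ≤ W ^ (N * (N - 1) / 2) := by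
  have h1 : (Matrix.of fun r s : Fin N => nw x s (x r)).det = ∏ r : Fin N, nw x r (x r) := by
    refine Matrix.det_of_isLowerTriangular _ ?_
    intro i j hij
    exact P12_nw_zero x _ _ hij
  rw [h1, Finset.abs_prod]
  have h2 : ∀ r : Fin N, |nw x r (x r)| ≤ W ^ (r : ℕ) := by
    intro r
    unfold nw
    rw [Finset.abs_prod]
    have h3 : ∏ b ∈ range (r : ℕ), |x r - x b| ≤ ∏ b ∈ range (r : ℕ), W := by
      refine Finset.prod_le_prod (fun _ _ => abs_nonneg _) fun b hb => ?_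
      have := hW b r (Finset.mem_range.1 hb) r.2
      rw [abs_of_nonneg this.1]
      exact this.2
    simpa using h3
  calc ∏ r : Fin N, |nw x r (x r)| ≤ ∏ r : Fin N, W ^ (r : ℕ) :=
        Finset.prod_le_prod (fun _ _ => abs_nonneg _) fun r _ => h2 r
    _ = ∏ r ∈ range N, W ^ r := Fin.prod_univ_eq_prod_range (fun r => W ^ r) N
    _ = W ^ (N * (N - 1) / 2) := by
        rw [Finset.prod_pow_eq_pow_sum, Finset.sum_range_id]

private lemma P12_detE (k : ℕ) (E : Matrix (Fin k) (Fin k) ℝ) (α : ℝ) (u v : ℕ → ℝ)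
    (hb : ∀ s l : Fin k, |E s l| ≤ α * u s * v l) :
    |E.det| ≤ (k.factorial : ℝ) * α ^ k * ((∏ s ∈ range k, u s) * ∏ l ∈ range k, v l) := by
  rw [Matrix.det_apply]
  have h1 : ∀ σ : Equiv.Perm (Fin k), |Equiv.Perm.sign σ • ∏ i, E (σ i) i| ≤
      α ^ k * ((∏ s ∈ range k, u s) * ∏ l ∈ range k, v l) := by
    intro σ
    have h2 : |Equiv.Perm.sign σ • ∏ i, E (σ i) i| = ∏ i, |E (σ i) i| := by
      rw [← Finset.abs_prod]
      rcases Int.units_eq_one_or (Equiv.Perm.sign σ) with h | h <;> simp [h]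
    rw [h2]
    calc ∏ i, |E (σ i) i| ≤ ∏ i : Fin k, (α * u (σ i) * v i) :=
          Finset.prod_le_prod (fun _ _ => abs_nonneg _) fun i _ => hb _ _
      _ = α ^ k * ((∏ s ∈ range k, u s) * ∏ l ∈ range k, v l) := by
          rw [Finset.prod_mul_distrib, Finset.prod_mul_distrib, Finset.prod_const,
            Finset.card_univ, Fintype.card_fin,
            Equiv.prod_comp σ (fun i : Fin k => u (i : ℕ)),
            Fin.prod_univ_eq_prod_range u k, Fin.prod_univ_eq_prod_range v k]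
          ring
  calc |∑ σ : Equiv.Perm (Fin k), Equiv.Perm.sign σ • ∏ i, E (σ i) i|
      ≤ ∑ σ : Equiv.Perm (Fin k), |Equiv.Perm.sign σ • ∏ i, E (σ i) i| :=
        Finset.abs_sum_le_sum_abs _ _
    _ ≤ ∑ σ : Equiv.Perm (Fin k), α ^ k * ((∏ s ∈ range k, u s) * ∏ l ∈ range k, v l) :=
        Finset.sum_le_sum fun σ _ => h1 σ
    _ = _ := by
        rw [Finset.sum_const, Finset.card_univ, Fintype.card_perm, Fintype.card_fin, nsmul_eq_mul]
        ring

private lemma P12_detD (m k : ℕ) (D : Matrix (Fin (m + k)) (Fin (m + k)) ℝ)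
    (c : ℕ → ℕ → ℝ) (hD : ∀ r j : Fin (m + k), D r j = c r j)
    (hz : ∀ r j, j < m → j < r → r < m + k → c r j = 0)
    (hdiag : ∀ j, j < m → c j j = 1 / (j.factorial : ℝ)) :
    D.det = (∏ i ∈ range m, 1 / (i.factorial : ℝ)) *
      (Matrix.of fun s l : Fin k => c (m + s) (m + l)).det := by
  rw [← Matrix.det_submatrix_equiv_self finSumFinEquiv D]
  have h1 : D.submatrix finSumFinEquiv finSumFinEquiv =
      Matrix.fromBlocks (Matrix.of fun r j : Fin m => c r j)
        (Matrix.of fun (r : Fin m) (l : Fin k) => c r (m + l))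
        0 (Matrix.of fun s l : Fin k => c (m + s) (m + l)) := by
    ext i j
    rcases i with i | i <;> rcases j with j | j
    · simp [hD]
    · simp [hD]
    · simp only [Matrix.submatrix_apply, hD, finSumFinEquiv_apply_right, finSumFinEquiv_apply_left,
        Matrix.fromBlocks_apply₂₁, Matrix.zero_apply, Fin.val_natAdd, Fin.val_castAdd]
      exact hz _ _ j.2 (by have := j.2; omega) (by have := i.2; omega)
    · simp [hD]
  rw [h1, Matrix.det_fromBlocks_zero₂₁]
  congr 1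
  have h2 : (Matrix.of fun r j : Fin m => c r j).det = ∏ i : Fin m, c i i := by
    refine Matrix.det_of_isUpperTriangular ?_
    intro i j hij
    exact hz _ _ j.2 hij (by have := i.2; omega)
  rw [h2]
  have h3 : ∀ i : Fin m, c i i = 1 / ((i : ℕ).factorial : ℝ) := fun i => hdiag i i.2
  rw [Finset.prod_congr rfl fun i _ => h3 i]
  exact Fin.prod_univ_eq_prod_range (fun i => 1 / (i.factorial : ℝ)) m

/-- ROW P12. Determinant bound. `Φ = T 𝒟` with `T r s = nw x s (x r)` lower triangular (`nw x s (x r) = 0` for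
`r < s`), `det T = ∏_r nw x r (x r)`, `|nw x r (x r)| ≤ W^r`, `∑ r = N(N-1)/2`; `𝒟` (reindexed by
`finSumFinEquiv`) is `fromBlocks A B 0 E` with `A` upper triangular of diagonal `1/c!`
(`Matrix.det_fromBlocks_zero₂₁`, `Matrix.det_of_isUpperTriangular`), and
`E s l = (1/R^(k+1+s)) ((2R)^l/l!) E' s l`, `|E' s l| ≤ α`, `|det E'| ≤ k! α^k` (`Matrix.det_le`,
`Matrix.det_mul_row`, `Matrix.det_mul_column`). -/
theorem det_bound (m k : ℕ) (x : ℕ → ℝ) (Φ : Matrix (Fin (m + k)) (Fin (m + k)) ℝ)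
    (c : ℕ → ℕ → ℝ)
    (hΦ : ∀ r j : Fin (m + k), Φ r j = ∑ s ∈ range (m + k), c s j * nw x s (x r))
    (hz : ∀ r j, j < m → j < r → r < m + k → c r j = 0)
    (hdiag : ∀ j, j < m → c j j = 1 / (j.factorial : ℝ)) (R α W : ℝ) (hR : 0 < R) (hα : 0 ≤ α)
    (hb : ∀ s l, s < k → l < k →
      |c (m + s) (m + l)| ≤ α * (1 / R ^ (k + 1 + s)) * ((2 * R) ^ l / (l.factorial : ℝ)))
    (hW : ∀ i j, i < j → j < m + k → 0 ≤ x j - x i ∧ x j - x i ≤ W) :
    |Φ.det| ≤ W ^ ((m + k) * (m + k - 1) / 2) * (∏ i ∈ range m, 1 / (i.factorial : ℝ)) *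
      ((k.factorial : ℝ) * α ^ k) * ((∏ s ∈ range k, 1 / R ^ (k + 1 + s)) *
        ∏ l ∈ range k, (2 * R) ^ l / (l.factorial : ℝ)) := by
  have h1 : Φ = (Matrix.of fun r s : Fin (m + k) => nw x s (x r)) *
      (Matrix.of fun s j : Fin (m + k) => c s j) := by
    ext r j
    rw [hΦ, Matrix.mul_apply, ← Fin.sum_univ_eq_sum_range (fun s => c s j * nw x s (x r)) (m + k)]
    exact Finset.sum_congr rfl fun s _ => mul_comm _ _
  have hP : 0 ≤ ∏ i ∈ range m, 1 / (i.factorial : ℝ) :=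
    Finset.prod_nonneg fun i _ => by positivity
  rw [h1, Matrix.det_mul, abs_mul,
    P12_detD m k (Matrix.of fun s j : Fin (m + k) => c s j) c (fun _ _ => rfl) hz hdiag, abs_mul,
    abs_of_nonneg hP]
  have h2 : |(Matrix.of fun r s : Fin (m + k) => nw x s (x r)).det| ≤
      W ^ ((m + k) * (m + k - 1) / 2) := P12_detT (m + k) x W hW
  have h3 := P12_detE k (Matrix.of fun s l : Fin k => c (m + s) (m + l)) α
    (fun s => 1 / R ^ (k + 1 + s)) (fun l => (2 * R) ^ l / (l.factorial : ℝ))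
    (fun s l => hb s l s.2 l.2)
  have h4 : 0 ≤ W ^ ((m + k) * (m + k - 1) / 2) := (abs_nonneg _).trans h2
  calc |(Matrix.of fun r s : Fin (m + k) => nw x s (x r)).det| *
        ((∏ i ∈ range m, 1 / (i.factorial : ℝ)) *
          |(Matrix.of fun s l : Fin k => c (m + s) (m + l)).det|)
      ≤ W ^ ((m + k) * (m + k - 1) / 2) * ((∏ i ∈ range m, 1 / (i.factorial : ℝ)) *
          ((k.factorial : ℝ) * α ^ k * ((∏ s ∈ range k, 1 / R ^ (k + 1 + s)) *
            ∏ l ∈ range k, (2 * R) ^ l / (l.factorial : ℝ)))) :=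
        mul_le_mul h2 (mul_le_mul_of_nonneg_left h3 hP)
          (mul_nonneg hP (abs_nonneg _)) h4
    _ = _ := by ring

end Pool.Agent.LibTri68P
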