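import Pool.Agent.LibTri68P.PDefs

open Filter Topology Polynomial Finset
open Pool.Agent.LibTri77

namespace Pool.Agent.LibTri68P

private lemma P13_fac (k : ℕ) :
    (k : ℝ) * Real.log k - k ≤ Real.log (k.factorial : ℝ) := by
  rcases Nat.eq_zero_or_pos k with h | h
  · subst h; simp
  have h1 := Real.pow_div_factorial_le_exp (k : ℝ) (Nat.cast_nonneg k) k
  have hf : (0 : ℝ) < (k.factorial : ℝ) := by exact_mod_cast Nat.factorial_pos k
  have hk : (0 : ℝ) < (k : ℝ) := by exact_mod_cast h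
  have h2 := Real.log_le_log (by positivity) h1
  rw [Real.log_exp, Real.log_div (by positivity) (by positivity), Real.log_pow] at h2
  linarith

/-- ROW P13. `∏_{c<k} c! ≥ k^(k^2/2) e^(-k^2)`, in logarithms (induction on `k`:
`log k! ≥ k log k - k`, and `(k+1)^2/2 log(k+1) - (k+1)^2 ≤ k^2/2 log k - k^2 + k log k - k` because
`(k^2+2k+1)/2 (log(k+1) - log k) ≤ (k^2+2k+1)/(2k)` and `log k ≤ k - 1`; `k = 0` and `k = 1` by hand). -/
theorem log_superfactorial (k : ℕ) :
    (k : ℝ) ^ 2 / 2 * Real.log k - (k : ℝ) ^ 2 ≤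
      Real.log (∏ c ∈ range k, (c.factorial : ℝ)) := by
  induction k with
  | zero => simp
  | succ k ih =>
    have hP : (0 : ℝ) < ∏ c ∈ range k, (c.factorial : ℝ) :=
      Finset.prod_pos fun c _ => by exact_mod_cast Nat.factorial_pos c
    have hf : (0 : ℝ) < (k.factorial : ℝ) := by exact_mod_cast Nat.factorial_pos k
    rw [Finset.prod_range_succ, Real.log_mul hP.ne' hf.ne']
    rcases Nat.eq_zero_or_pos k with h | h
    · subst h; simp
    have hk : (0 : ℝ) < (k : ℝ) := by exact_mod_cast h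
    have hk1 : (1 : ℝ) ≤ (k : ℝ) := by exact_mod_cast h
    have h1 := P13_fac k
    have h2 : Real.log ((k : ℝ) + 1) ≤ Real.log k + 1 / k := by
      have h3 : Real.log (((k : ℝ) + 1) / k) ≤ ((k : ℝ) + 1) / k - 1 :=
        Real.log_le_sub_one_of_pos (by positivity)
      rw [Real.log_div (by positivity) (by positivity)] at h3
      have h4 : ((k : ℝ) + 1) / k - 1 = 1 / k := by field_simp; ring
      linarith
    have h5 : Real.log (k : ℝ) ≤ k - 1 := Real.log_le_sub_one_of_pos hk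
    have h6 : ((k : ℝ) + 1) ^ 2 / 2 * Real.log ((k : ℝ) + 1) ≤
        ((k : ℝ) + 1) ^ 2 / 2 * (Real.log k + 1 / k) :=
      mul_le_mul_of_nonneg_left h2 (by positivity)
    have h7 : ((k : ℝ) + 1) ^ 2 / 2 * (1 / k) = k / 2 + 1 + 1 / k / 2 := by
      field_simp
      ring
    have h8 : 1 / (k : ℝ) ≤ 1 := by
      rw [div_le_one hk]; exact hk1
    push_cast
    nlinarith

private lemma P13_half (n : ℕ) (hn : 1 ≤ n) :
    (((n * (n - 1) / 2 : ℕ)) : ℝ) = (n : ℝ) * ((n : ℝ) - 1) / 2 := by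
  have h1 : 2 ∣ n * (n - 1) := (Nat.even_mul_pred_self n).two_dvd
  rw [Nat.cast_div h1 (by norm_num), Nat.cast_mul, Nat.cast_sub hn]
  norm_num

/-- The parameter inequality: take logarithms, `N = 2k+K`, `N(N-1)/2 = 2(k^2 + s)`,
`s = k(2K-1)/2 + K(K-1)/4`; `log W^2 ≤ log δ + log R + log k`; `log R ≤ log q ≤ k`, `log H ≤ k`, `log k ≤ k`,
`∏_{i<k+K} i! ≥ ∏_{i<k} i!`; `(s-k) log R - (K-1) k log q ≤ (K^2/4) log q ≤ K^2 k`. Everything except
`(k^2+s) log δ` is at most a constant (depending on `K`) times `k^2`; take `log δ` below minus that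
constant minus `1`. -/
theorem param (K : ℕ) (hK : 2 ≤ K) : ∃ δ : ℝ, 0 < δ ∧ δ ≤ 1 ∧
    ∀ (k : ℕ) (q H R W : ℝ), 1 ≤ k → 1 ≤ R → R ≤ q → 1 ≤ H → Real.log (q * H) ≤ k → 0 < W →
      W ^ 2 ≤ δ * R * k →
      H ^ (2 * k + K) * (W ^ ((2 * k + K) * (2 * k + K - 1) / 2) * (k.factorial : ℝ) *
        (2 ^ (K + 1)) ^ k * 2 ^ (k * (k - 1) / 2)) <
      q ^ ((K - 1) * k) * R ^ (k * (k + 1)) * (∏ i ∈ range (k + K), (i.factorial : ℝ)) *
        ∏ l ∈ range k, (l.factorial : ℝ) := by
  have hKr : (2 : ℝ) ≤ (K : ℝ) := by exact_mod_cast hK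
  refine ⟨Real.exp (-(2 * (K : ℝ) ^ 2 + 3 * K + 8)), Real.exp_pos _, ?_, ?_⟩
  · rw [Real.exp_le_one_iff]
    nlinarith
  intro k q H R W hk hR hRq hH hqH hW hW2
  have hkr : (1 : ℝ) ≤ (k : ℝ) := by exact_mod_cast hk
  have hk0 : (0 : ℝ) < (k : ℝ) := by linarith
  have hR0 : 0 < R := by linarith
  have hq0 : 0 < q := by linarith
  have hH0 : 0 < H := by linarith
  have hf : (0 : ℝ) < (k.factorial : ℝ) := by exact_mod_cast Nat.factorial_pos k
  have hP : ∀ n : ℕ, (0 : ℝ) < ∏ c ∈ range n, (c.factorial : ℝ) := fun n =>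
    Finset.prod_pos fun c _ => by exact_mod_cast Nat.factorial_pos c
  have hlR : 0 ≤ Real.log R := Real.log_nonneg hR
  have hlRq : Real.log R ≤ Real.log q := Real.log_le_log hR0 hRq
  have hlH : 0 ≤ Real.log H := Real.log_nonneg hH
  have hlk : 0 ≤ Real.log (k : ℝ) := Real.log_nonneg hkr
  have hlk1 : Real.log (k : ℝ) ≤ k := by
    have := Real.log_le_sub_one_of_pos hk0; linarith
  rw [Real.log_mul hq0.ne' hH0.ne'] at hqH
  have hl2 : 0 ≤ Real.log 2 := Real.log_nonneg (by norm_num)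
  have hl2' : Real.log 2 ≤ 1 := by
    have := Real.log_le_sub_one_of_pos (show (0 : ℝ) < 2 by norm_num); linarith
  have hlf : Real.log (k.factorial : ℝ) ≤ (k : ℝ) * Real.log k := by
    rw [← Real.log_pow]
    exact Real.log_le_log hf (by exact_mod_cast Nat.factorial_le_pow k)
  have hlW : 2 * Real.log W ≤ -(2 * (K : ℝ) ^ 2 + 3 * K + 8) + Real.log R + Real.log k := by
    have h1 := Real.log_le_log (by positivity) hW2
    rw [Real.log_pow, Real.log_mul (by positivity) hk0.ne',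
      Real.log_mul (Real.exp_pos _).ne' hR0.ne', Real.log_exp] at h1
    push_cast at h1
    exact h1
  have hsup := log_superfactorial k
  have hsup2 : Real.log (∏ i ∈ range k, (i.factorial : ℝ)) ≤
      Real.log (∏ i ∈ range (k + K), (i.factorial : ℝ)) := by
    refine Real.log_le_log (hP k) ?_
    rw [Finset.prod_range_add]
    refine le_mul_of_one_le_right (hP k).le ?_
    have : ∀ i ∈ range K, (1 : ℝ) ≤ ((k + i).factorial : ℝ) := fun i _ => by
      exact_mod_cast Nat.factorial_pos (k + i)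
    calc (1 : ℝ) = ∏ i ∈ range K, (1 : ℝ) := by simp
      _ ≤ _ := Finset.prod_le_prod (fun _ _ => by norm_num) this
  rw [← Real.log_lt_log_iff (by have := hP (k + K); have := hP k; positivity)
    (by have := hP (k + K); have := hP k; positivity)]
  rw [Real.log_mul (by positivity) (by positivity),
    Real.log_mul (by positivity) (by positivity),
    Real.log_mul (by positivity) (by positivity),
    Real.log_mul (by positivity) (by positivity),
    Real.log_mul (by have := hP (k + K); positivity) (hP k).ne',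
    Real.log_mul (by positivity) (hP (k + K)).ne',
    Real.log_mul (by positivity) (by positivity)]
  simp only [Real.log_pow]
  rw [P13_half k hk, P13_half (2 * k + K) (by omega)]
  have hK1 : (((K - 1 : ℕ)) : ℝ) = (K : ℝ) - 1 := by
    rw [Nat.cast_sub (by omega)]; norm_num
  push_cast
  rw [hK1]
  set a := Real.log R with ha
  set b := Real.log q with hb
  set h := Real.log H with hh
  set w := Real.log W with hw
  set c := Real.log (k : ℝ) with hc
  set t := Real.log 2 with ht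
  set F := Real.log (k.factorial : ℝ) with hF
  set P := Real.log (∏ i ∈ range k, (i.factorial : ℝ)) with hPd
  set P' := Real.log (∏ i ∈ range (k + K), (i.factorial : ℝ)) with hPd'
  generalize (k : ℝ) = k at *
  generalize (K : ℝ) = K at *
  have e1 : (2 * k + K) * (2 * k + K - 1) / 2 * w ≤
      (k ^ 2 + k * (2 * K - 1) / 2 + K * (K - 1) / 4) *
        (-(2 * K ^ 2 + 3 * K + 8) + a + c) := by
    have h0 : (2 * k + K) * (2 * k + K - 1) / 2 * w =
        (k ^ 2 + k * (2 * K - 1) / 2 + K * (K - 1) / 4) * (2 * w) := by ring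
    rw [h0]
    refine mul_le_mul_of_nonneg_left hlW ?_
    have : 0 ≤ k * (2 * K - 1) := mul_nonneg hk0.le (by linarith)
    have : 0 ≤ K * (K - 1) := mul_nonneg (by linarith) (by linarith)
    positivity
  have hs0 : 0 ≤ k * (2 * K - 1) / 2 + K * (K - 1) / 4 := by
    have : 0 ≤ k * (2 * K - 1) := mul_nonneg hk0.le (by linarith)
    have : 0 ≤ K * (K - 1) := mul_nonneg (by linarith) (by linarith)
    positivity
  have hkk : k ≤ k ^ 2 := by nlinarith
  have hKK : 0 ≤ K * (K - 1) := mul_nonneg (by linarith) (by linarith)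
  have e2 : (2 * k + K) * h ≤ (2 + K) * k ^ 2 := by
    have : (2 * k + K) * h ≤ (2 * k + K) * k :=
      mul_le_mul_of_nonneg_left (by linarith) (by linarith)
    have : K * k ≤ K * k ^ 2 := mul_le_mul_of_nonneg_left hkk (by linarith)
    linarith
  have e3 : (k * (2 * K - 1) / 2 + K * (K - 1) / 4 - k) * a ≤
      (k * (2 * K - 1) / 2 + K * (K - 1) / 4 - k) * b := by
    refine mul_le_mul_of_nonneg_left hlRq ?_
    have : 0 ≤ k * (2 * K - 3) := mul_nonneg hk0.le (by linarith)
    linarith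
  have hb0 : 0 ≤ b := by linarith
  have hbk : b ≤ k := by linarith
  have e4 : (k * (2 * K - 1) / 2 + K * (K - 1) / 4 - k) * b - (K - 1) * k * b ≤
      K ^ 2 * k ^ 2 := by
    have h1 : (k * (2 * K - 1) / 2 + K * (K - 1) / 4 - k) * b - (K - 1) * k * b =
        K * (K - 1) / 4 * b - k * b / 2 := by ring
    rw [h1]
    have h2 : 0 ≤ k * b := mul_nonneg hk0.le hb0
    have h3 : K * (K - 1) / 4 * b ≤ K * (K - 1) / 4 * k :=
      mul_le_mul_of_nonneg_left hbk (by linarith)
    have h4 : K * (K - 1) / 4 * k ≤ K ^ 2 * k ^ 2 := by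
      have : K * (K - 1) / 4 ≤ K ^ 2 := by linarith [sq_nonneg K]
      exact mul_le_mul this hkk hk0.le (by positivity)
    linarith
  have e5 : (k * (2 * K - 1) / 2 + K * (K - 1) / 4) * c ≤ (K + K ^ 2) * k ^ 2 := by
    have h1 : (k * (2 * K - 1) / 2 + K * (K - 1) / 4) * c ≤
        (k * (2 * K - 1) / 2 + K * (K - 1) / 4) * k := mul_le_mul_of_nonneg_left hlk1 hs0
    have h2 : K ^ 2 * k ≤ K ^ 2 * k ^ 2 := mul_le_mul_of_nonneg_left hkk (by positivity)
    have h3 : 0 ≤ K ^ 2 * k ^ 2 := by positivity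
    have h4 : 0 ≤ k ^ 2 := by positivity
    have h5 : 0 ≤ K * k := mul_nonneg (by linarith) hk0.le
    linarith
  have e6 : F ≤ k ^ 2 := by
    have := mul_le_mul_of_nonneg_left hlk1 hk0.le
    linarith
  have e7 : k * ((K + 1) * t) ≤ (K + 1) * k ^ 2 := by
    have h1 : (K + 1) * t ≤ (K + 1) * 1 := mul_le_mul_of_nonneg_left hl2' (by linarith)
    have h2 : k * ((K + 1) * t) ≤ k * ((K + 1) * 1) := mul_le_mul_of_nonneg_left h1 hk0.le
    have h3 : (K + 1) * k ≤ (K + 1) * k ^ 2 := mul_le_mul_of_nonneg_left hkk (by linarith)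
    linarith
  have e8 : k * (k - 1) / 2 * t ≤ k ^ 2 := by
    have h1 : k * (k - 1) / 2 * t ≤ k * (k - 1) / 2 * 1 :=
      mul_le_mul_of_nonneg_left hl2' (by have := mul_nonneg hk0.le (sub_nonneg.2 hkr); linarith)
    linarith [sq_nonneg k]
  have e9 : 0 ≤ (k * (2 * K - 1) / 2 + K * (K - 1) / 4) * (2 * K ^ 2 + 3 * K + 8) :=
    mul_nonneg hs0 (by positivity)
  have e10 : 0 < k ^ 2 := by positivity
  linarith

end Pool.Agent.LibTri68P
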