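import Pool.Agent.LibTri68P.PDefs

open Filter Topology Polynomial Finset
open Pool.Agent.LibTri77

namespace Pool.Agent.LibTri68P

/-- ROW P14. Counting: let `n = T.card`, `b` the increasing enumeration, `L = (n-1)/(N-1)`;
telescoping over the windows `b ((N-1)i), …, b ((N-1)(i+1))`, `i < L`, gives `L w ≤ M`, and
`n - 1 < (N-1)(L+1)`. -/
theorem count (T : Finset ℕ) (N : ℕ) (hN : 2 ≤ N) (f : ℕ → ℝ) (w M : ℝ) (hw : 0 < w) (hM0 : 0 ≤ M)
    (hM : ∀ j ∈ T, 0 ≤ f j ∧ f j ≤ M)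
    (h : ∀ b : ℕ → ℕ, (∀ i, i + 1 < N → b i < b (i + 1)) → (∀ i, i < N → b i ∈ T) →
      w ≤ f (b (N - 1)) - f (b 0)) :
    (T.card : ℝ) ≤ ((N : ℝ) - 1) * (M / w + 1) + 1 := by
  obtain ⟨k, rfl⟩ : ∃ k, N = k + 1 := ⟨N - 1, by omega⟩
  have hk : 1 ≤ k := by omega
  have hkR : (1 : ℝ) ≤ k := by exact_mod_cast hk
  have hMw : 0 ≤ M / w := div_nonneg hM0 hw.le
  have e1 : (((k + 1 : ℕ) : ℝ) - 1) = k := by push_cast; ring
  rw [e1]
  rcases Nat.eq_zero_or_pos T.card with h0 | hpos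
  · rw [h0]
    have : 0 ≤ (k : ℝ) * (M / w + 1) := mul_nonneg (by linarith) (by linarith)
    push_cast
    linarith
  obtain ⟨e, he⟩ : ∃ e : ℕ → ℕ, ∀ i (hi : i < T.card), e i = T.orderEmbOfFin rfl ⟨i, hi⟩ :=
    ⟨fun i => if hi : i < T.card then T.orderEmbOfFin rfl ⟨i, hi⟩ else 0,
      fun i hi => by simp [hi]⟩
  have hmem : ∀ i, i < T.card → e i ∈ T := fun i hi => by
    rw [he i hi]; exact T.orderEmbOfFin_mem rfl _
  have hlt : ∀ i, i + 1 < T.card → e i < e (i + 1) := fun i hi => by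
    rw [he i (by omega), he (i + 1) hi]
    exact (T.orderEmbOfFin rfl).strictMono (by simp [Fin.lt_def])
  obtain ⟨L, hL⟩ : ∃ L, L = (T.card - 1) / k := ⟨_, rfl⟩
  have hLk : k * L ≤ T.card - 1 := by rw [hL]; exact Nat.mul_div_le _ _
  have hLk2 : T.card - 1 < k * (L + 1) := by rw [hL]; exact Nat.lt_mul_div_succ _ (by omega)
  have hwin : ∀ i, i < L → w ≤ f (e (k * (i + 1))) - f (e (k * i)) := by
    intro i hi
    have hle : k * (i + 1) ≤ k * L := Nat.mul_le_mul_left _ hi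
    have hex : k * (i + 1) = k * i + k := by ring
    have := h (fun j => e (k * i + j)) (fun j hj => by
      have := hlt (k * i + j) (by omega)
      exact this) (fun j hj => hmem _ (by omega))
    simpa [hex] using this
  have htel : (L : ℝ) * w ≤ f (e (k * L)) - f (e 0) := by
    have h1 : ∑ i ∈ range L, (f (e (k * (i + 1))) - f (e (k * i))) =
        f (e (k * L)) - f (e (k * 0)) := Finset.sum_range_sub (fun i => f (e (k * i))) L
    rw [mul_zero] at h1
    rw [← h1]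
    calc (L : ℝ) * w = ∑ _i ∈ range L, w := by simp
      _ ≤ _ := Finset.sum_le_sum (fun i hi => hwin i (Finset.mem_range.mp hi))
  have hfe0 := hM _ (hmem 0 hpos)
  have hfeL := hM _ (hmem (k * L) (by omega))
  have hLM : (L : ℝ) ≤ M / w := by
    rw [le_div_iff₀ hw]
    linarith [hfe0.1, hfeL.2]
  have hcard : (T.card : ℝ) ≤ k * ((L : ℝ) + 1) := by
    have : T.card ≤ k * (L + 1) := by omega
    exact_mod_cast this
  have : (k : ℝ) * ((L : ℝ) + 1) ≤ k * (M / w + 1) :=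
    mul_le_mul_of_nonneg_left (by linarith) (by linarith)
  linarith

/-- `W ≥ k`, `W^2 > δ u k` or `W > u`, then `√(u+W) - √u ≥ √(δk)/3` -/
theorem sqrt_gap (u W δ k : ℝ) (hu : 1 ≤ u) (hk : 1 ≤ k) (hW : k ≤ W) (hδ : 0 < δ) (hδ1 : δ ≤ 1)
    (h : W ≤ u → δ * u * k < W ^ 2) : √(δ * k) / 3 ≤ √(u + W) - √u := by
  have ha0 : 0 < √u := Real.sqrt_pos.mpr (by linarith)
  have ha2 : √u ^ 2 = u := Real.sq_sqrt (by linarith)
  have hb0 : 0 ≤ √(u + W) := Real.sqrt_nonneg _
  have hb2 : √(u + W) ^ 2 = u + W := Real.sq_sqrt (by linarith)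
  have hs0 : 0 ≤ √(δ * k) := Real.sqrt_nonneg _
  have hs2 : √(δ * k) ^ 2 = δ * k := Real.sq_sqrt (mul_nonneg hδ.le (by linarith))
  have hab : √u ≤ √(u + W) := Real.sqrt_le_sqrt (by linarith)
  have hprod : (√(u + W) - √u) * (√(u + W) + √u) = W := by
    have : (√(u + W) - √u) * (√(u + W) + √u) = √(u + W) ^ 2 - √u ^ 2 := by ring
    rw [this, ha2, hb2]; ring
  rcases le_or_gt W u with hWu | hWu
  · have h1 := h hWu
    have h2 : √u * √(δ * k) < W := by
      apply lt_of_pow_lt_pow_left₀ 2 (by linarith)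
      rw [mul_pow, ha2, hs2]
      linarith
    have h3 : √(u + W) ≤ 2 * √u := by
      apply le_of_sq_le_sq _ (by linarith) 
      rw [mul_pow, ha2, hb2]
      linarith
    have h4 : (√(u + W) - √u) * (√(u + W) + √u) ≤ (√(u + W) - √u) * (3 * √u) :=
      mul_le_mul_of_nonneg_left (by linarith) (by linarith)
    have h5 : √u * √(δ * k) < √u * (3 * (√(u + W) - √u)) := by
      calc √u * √(δ * k) < W := h2
        _ = _ := hprod.symm
        _ ≤ _ := h4
        _ = _ := by ring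
    have h6 := lt_of_mul_lt_mul_left h5 ha0.le
    linarith
  · have hr0 : 0 < √W := Real.sqrt_pos.mpr (by linarith)
    have hr2 : √W ^ 2 = W := Real.sq_sqrt (by linarith)
    have h1 : √(δ * k) ≤ √W := by
      apply Real.sqrt_le_sqrt
      have : δ * k ≤ 1 * k := mul_le_mul_of_nonneg_right hδ1 (by linarith)
      linarith
    have h2 : √u ≤ √W := Real.sqrt_le_sqrt hWu.le
    have h3 : √(u + W) ≤ 2 * √W := by
      apply le_of_sq_le_sq _ (by linarith)
      rw [mul_pow, hr2, hb2]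
      linarith
    have h4 : (√(u + W) - √u) * (√(u + W) + √u) ≤ (√(u + W) - √u) * (3 * √W) :=
      mul_le_mul_of_nonneg_left (by linarith) (by linarith)
    have h5 : √W * √W ≤ √W * (3 * (√(u + W) - √u)) := by
      calc √W * √W = W := by rw [← sq, hr2]
        _ = _ := hprod.symm
        _ ≤ _ := h4
        _ = _ := by ring
    have h6 := le_of_mul_le_mul_left h5 hr0
    linarith

end Pool.Agent.LibTri68P
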