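import Pool.Agent.LibTri68P.P02
import Pool.Agent.LibTri68P.P09
import Pool.Agent.LibTri68P.P10
import Pool.Agent.LibTri68P.P11
import Pool.Agent.LibTri68P.P12
import Pool.Agent.LibTri68P.P13

open Filter Topology Polynomial Finset
open Pool.Agent.LibTri77

namespace Pool.Agent.LibTri68P

lemma poly_chain (Q : ℝ[X]) (a b : ℝ) : Chain (fun n t => (derivative^[n] Q).eval t) a b := by
  intro n t _ _
  simp only [Function.iterate_succ_apply']
  exact Polynomial.hasDerivAt _ t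

lemma strict_of_step (N : ℕ) (x : ℕ → ℝ) (hx : ∀ i, i + 1 < N → x i < x (i + 1)) :
    ∀ j, j < N → ∀ i, i < j → x i < x j := by
  intro j
  induction j with
  | zero => intro _ i hi; omega
  | succ j ih =>
    intro hj i hi
    rcases Nat.lt_or_ge i j with h | h
    · exact (ih (by omega) i h).trans (hx j hj)
    · have : i = j := by omega
      subst this
      exact hx i hj

lemma nat_gap (N : ℕ) (j : ℕ → ℕ) (hj : ∀ i, i + 1 < N → j i < j (i + 1)) :
    ∀ i, i < N → j 0 + i ≤ j i := by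
  intro i
  induction i with
  | zero => intro _; simp
  | succ i ih =>
    intro hi
    have h1 := ih (by omega)
    have h2 := hj i hi
    omega

/-- column functions -/
noncomputable def col (m : ℕ) (a : ℝ) (x y : ℕ → ℝ) (c i : ℕ) : ℝ :=
  if c < m then (bp a c).eval (x i) else (bp a (c - m)).eval (x i) * y i

lemma prod_pow_inv (k : ℕ) (R : ℝ) (hR : 0 < R) :
    (∏ s ∈ range k, 1 / R ^ (k + 1 + s)) * (∏ l ∈ range k, (2 * R) ^ l / (l.factorial : ℝ)) =
      2 ^ (k * (k - 1) / 2) / (R ^ (k * (k + 1)) * ∏ l ∈ range k, (l.factorial : ℝ)) := by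
  have h1 : ∏ s ∈ range k, 1 / R ^ (k + 1 + s) = 1 / (R ^ (k * (k + 1)) * R ^ (k * (k - 1) / 2)) := by
    rw [Finset.prod_div_distrib, Finset.prod_const_one]
    congr 1
    have : ∏ s ∈ range k, R ^ (k + 1 + s) = R ^ (∑ s ∈ range k, (k + 1 + s)) :=
      Finset.prod_pow_eq_pow_sum _ _ _
    rw [this, Finset.sum_add_distrib, Finset.sum_const, Finset.card_range, smul_eq_mul,
      Finset.sum_range_id, pow_add]
  have h2 : ∏ l ∈ range k, (2 * R) ^ l / (l.factorial : ℝ) =
      (2 ^ (k * (k - 1) / 2) * R ^ (k * (k - 1) / 2)) / ∏ l ∈ range k, (l.factorial : ℝ) := by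
    rw [Finset.prod_div_distrib, Finset.prod_pow_eq_pow_sum, Finset.sum_range_id, mul_pow]
  rw [h1, h2]
  have h3 : R ^ (k * (k - 1) / 2) ≠ 0 := by positivity
  have h4 : (∏ l ∈ range k, (l.factorial : ℝ)) ≠ 0 := by
    apply Finset.prod_ne_zero_iff.2
    intro i _
    positivity
  field_simp

/-- integrality of the determinant -/
lemma det_int (m k : ℕ) (j : ℕ → ℕ) (H : ℝ) (y : ℕ → ℝ)
    (hj : ∀ i, i < m + k → j 0 ≤ j i)
    (hd : ∀ i, i < m + k → ∃ d : ℕ, 1 ≤ d ∧ (d : ℝ) ≤ H ∧ ∃ c : ℤ, (d : ℝ) * y i = c)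
    (hne : (Mx m k (j 0 : ℝ) (fun i => (j i : ℝ)) y).det ≠ 0) :
    1 ≤ H ^ (m + k) * |(Mx m k (j 0 : ℝ) (fun i => (j i : ℝ)) y).det| := by
  choose d hd1 hdH c hc using fun i : Fin (m + k) => hd i i.2
  set Z : Matrix (Fin (m + k)) (Fin (m + k)) ℤ := Matrix.of fun r s =>
    if (s : ℕ) < m then (d r : ℤ) * ((j r - j 0).choose s : ℤ)
    else ((j r - j 0).choose (s - m) : ℤ) * c r with hZ
  have h1 : (Matrix.of fun r s => (d r : ℝ) *
      (Mx m k (j 0 : ℝ) (fun i => (j i : ℝ)) y) r s) = Z.map (Int.castRingHom ℝ) := by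
    ext r s
    simp only [Matrix.of_apply, Matrix.map_apply, hZ, Mx]
    split_ifs with h
    · rw [bp_eval _ _ _ (hj r r.2)]
      simp
    · rw [bp_eval _ _ _ (hj r r.2)]
      simp only [eq_intCast, Int.cast_mul, Int.cast_natCast]
      rw [← hc r]
      ring
  have h2 := Matrix.det_mul_column (fun r : Fin (m + k) => (d r : ℝ))
    (Mx m k (j 0 : ℝ) (fun i => (j i : ℝ)) y)
  rw [h1, ← RingHom.mapMatrix_apply, ← RingHom.map_det] at h2
  have hdpos : ∀ r, (0 : ℝ) < d r := fun r => by exact_mod_cast (by have := hd1 r; omega : 0 < d r)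
  have hprod : (0 : ℝ) < ∏ r, (d r : ℝ) := Finset.prod_pos fun r _ => hdpos r
  have h3 : Z.det ≠ 0 := by
    intro h0
    rw [h0, map_zero] at h2
    rcases mul_eq_zero.1 h2.symm with h | h
    · exact hprod.ne' h
    · exact hne h
  have h4 : (1 : ℝ) ≤ |((Int.castRingHom ℝ) Z.det)| := by
    have := Int.one_le_abs h3
    simp only [eq_intCast]
    exact_mod_cast this
  rw [h2, abs_mul, abs_of_pos hprod] at h4
  refine h4.trans (mul_le_mul_of_nonneg_right ?_ (abs_nonneg _))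
  calc ∏ r, (d r : ℝ) ≤ ∏ _r : Fin (m + k), H :=
        Finset.prod_le_prod (fun r _ => (hdpos r).le) (fun r _ => hdH r)
    _ = H ^ (m + k) := by simp

/-- bound of the high derivatives -/
lemma D_bound (K : ℕ) (hK : 2 ≤ K) (q : ℝ) (hq : 0 < q) (D : ℕ → ℝ → ℝ)
    (hD2 : ∀ m t, 0 < t → t < q → D (K + 1 + m) t =
        (2 / q) ^ (K - 1) / Real.pi * ((-1) ^ m * ((m + 1).factorial : ℝ) * S q (m + 2) t))
    (R t : ℝ) (hR : 0 < R) (h0 : R ≤ t) (h1 : t + R ≤ q) (n : ℕ) (hn : K + 1 ≤ n) :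
    |D n t| ≤ (n.factorial : ℝ) * ((2 ^ (K + 1) / q ^ (K - 1)) / R ^ (n + 1 - K)) := by
  obtain ⟨m, rfl⟩ := Nat.exists_eq_add_of_le hn
  have hpi := Real.pi_pos
  have hpi3 := Real.pi_gt_three
  rw [hD2 m t (by linarith) (by linarith), abs_mul, abs_mul, abs_mul, abs_pow, abs_neg, abs_one,
    one_pow, one_mul]
  have hS := S_bound q R (m + 2) t (by omega) hR h0 h1
  have e : K + 1 + m + 1 - K = m + 2 := by omega
  rw [e]
  have hκ : 0 ≤ (2 / q) ^ (K - 1) / Real.pi := by positivity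
  rw [abs_of_nonneg hκ, abs_of_nonneg (by positivity : (0 : ℝ) ≤ ((m + 1).factorial : ℝ))]
  have hf : ((m + 1).factorial : ℝ) ≤ ((K + 1 + m).factorial : ℝ) := by
    exact_mod_cast Nat.factorial_le (by omega)
  have hR' : (0 : ℝ) < R ^ (m + 2) := by positivity
  have hκ5 : (2 / q) ^ (K - 1) / Real.pi * 5 ≤ 2 ^ (K + 1) / q ^ (K - 1) := by
    obtain ⟨L, rfl⟩ : ∃ L, K = L + 1 := ⟨K - 1, by omega⟩
    rw [Nat.add_sub_cancel, div_pow]
    have e2 : (2 : ℝ) ^ L / q ^ L / Real.pi * 5 = (2 ^ L / q ^ L) * (5 / Real.pi) := by ring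
    have e3 : (2 : ℝ) ^ (L + 1 + 1) / q ^ L = (2 ^ L / q ^ L) * 4 := by ring
    rw [e2, e3]
    apply mul_le_mul_of_nonneg_left _ (by positivity)
    rw [div_le_iff₀ hpi]
    linarith
  calc (2 / q) ^ (K - 1) / Real.pi * (((m + 1).factorial : ℝ) * |S q (m + 2) t|)
      ≤ (2 / q) ^ (K - 1) / Real.pi * (((K + 1 + m).factorial : ℝ) * (5 / R ^ (m + 2))) := by
        apply mul_le_mul_of_nonneg_left _ hκ
        exact mul_le_mul hf hS (abs_nonneg _) (by positivity)
    _ = ((K + 1 + m).factorial : ℝ) * (((2 / q) ^ (K - 1) / Real.pi * 5) / R ^ (m + 2)) := by ring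
    _ ≤ _ := by
        apply mul_le_mul_of_nonneg_left _ (by positivity)
        exact div_le_div_of_nonneg_right hκ5 hR'.le

/-- entries of the Newton coefficient matrix -/
lemma entry_bound (K k : ℕ) (hK : 2 ≤ K) (q : ℝ) (hq : 0 < q) (P : ℝ[X])
    (hP : P.natDegree ≤ K) (N : ℕ) (hN : N = k + K + k) (x : ℕ → ℝ)
    (hx : ∀ i, i + 1 < N → x i < x (i + 1)) (R : ℝ) (hR : 0 < R) (hx0 : x 0 = R)
    (hxN : x (N - 1) + R ≤ q) (hW : x (N - 1) - x 0 ≤ R) (hkR : (k : ℝ) ≤ R)
    (s l : ℕ) (hs : s < k) (hl : l < k) (c : ℕ → ℝ)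
    (hc : ∀ i, i < N → (bp R l).eval (x i) * (gq K q (x i) + P.eval (x i)) =
      ∑ s ∈ range N, c s * nw x s (x i)) :
    |c (k + K + s)| ≤ (2 ^ (K + 1) / q ^ (K - 1)) * (1 / R ^ (k + 1 + s)) *
      ((2 * R) ^ l / (l.factorial : ℝ)) := by
  obtain ⟨D, hD0, hD, hD2⟩ := exists_D K hK q hq
  set r := k + K + s with hr
  have hrN : r < N := by omega
  have hlf : (0 : ℝ) < (l.factorial : ℝ) := by positivity
  set E : ℕ → ℝ → ℝ := fun n t => (derivative^[n] (bp R l * P)).eval t +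
    (1 / (l.factorial : ℝ)) * HS D R l n t with hE
  have hEc : Chain E 0 q := by
    apply chain_add_poly
    intro n t h0 h1
    exact (HS_chain D R 0 q hD l n t h0 h1).const_mul _
  have hmono := strict_of_step N x hx
  have hbp : ∀ t, (bp R l).eval t = (1 / (l.factorial : ℝ)) * ∏ i ∈ range l, (t - (R + i)) := by
    intro t
    unfold bp
    rw [eval_mul, eval_C, eval_prod]
    simp
  have h0 : ∀ i, i < N → E 0 (x i) = ∑ s ∈ range N, c s * nw x s (x i) := by
    intro i hi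
    rw [← hc i hi]
    simp only [hE, Function.iterate_zero, id_eq, HS_zero, hD0, eval_mul]
    rw [hbp]
    ring
  obtain ⟨ξ, hξ1, hξ2, hξ⟩ := newton_mvt E 0 q hEc N r hrN x hx (by rw [hx0]; exact hR)
    (by linarith) c h0
  have hξN : ξ ≤ x (N - 1) := by
    rcases Nat.lt_or_ge r (N - 1) with h | h
    · exact hξ2.trans (hmono (N - 1) (by omega) r h).le
    · have : r = N - 1 := by omega
      rw [← this]
      exact hξ2
  have hpoly : derivative^[r] (bp R l * P) = 0 := by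
    apply iterate_derivative_eq_zero
    refine (natDegree_mul_le).trans_lt ?_
    rw [bp_natDegree]
    omega
  simp only [hE, hpoly, eval_zero, zero_add] at hξ
  have hHS := HS_bound D R R (2 ^ (K + 1) / q ^ (K - 1)) ξ K k (by omega) hR (by positivity)
    (by
      intro i hi
      have hi' : (i : ℝ) ≤ R := (by exact_mod_cast hi.le : (i : ℝ) ≤ k).trans hkR
      have hi0 : (0 : ℝ) ≤ i := Nat.cast_nonneg i
      rw [abs_le]
      constructor
      · linarith
      · linarith)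
    (fun n hn => D_bound K hK q hq D hD2 R ξ hR (by linarith) (by linarith) n hn)
    l r hl.le (by omega)
  have e1 : r + 1 - K = k + 1 + s := by omega
  rw [e1] at hHS
  have hrf : (0 : ℝ) < (r.factorial : ℝ) := by positivity
  have h3 : c r = (1 / (l.factorial : ℝ)) * HS D R l r ξ / (r.factorial : ℝ) := by
    rw [hξ]
    field_simp
  rw [h3, abs_div, abs_mul, abs_of_pos hrf, abs_of_nonneg (by positivity :
    (0 : ℝ) ≤ 1 / (l.factorial : ℝ)), div_le_iff₀ hrf]
  calc 1 / (l.factorial : ℝ) * |HS D R l r ξ| ≤ 1 / (l.factorial : ℝ) *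
        ((r.factorial : ℝ) * (2 ^ (K + 1) / q ^ (K - 1) * (2 * R) ^ l / R ^ (k + 1 + s))) :=
        mul_le_mul_of_nonneg_left hHS (by positivity)
    _ = _ := by ring

/-- ROW P15 (helper68). -/
theorem window (K : ℕ) (hK : 2 ≤ K) : ∃ δ : ℝ, 0 < δ ∧ δ ≤ 1 ∧
    ∀ (q k : ℕ) (H : ℝ) (P : ℝ[X]) (j : ℕ → ℕ), P.natDegree ≤ K → 1 ≤ k → 1 ≤ H →
      Real.log (q * H) ≤ k → 1 ≤ j 0 → (∀ i, i + 1 < 2 * k + K → j i < j (i + 1)) →
      j (2 * k + K - 1) + j 0 ≤ q → (j (2 * k + K - 1) : ℝ) - j 0 ≤ j 0 →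
      (∀ i, i < 2 * k + K → ∃ d : ℕ, 1 ≤ d ∧ (d : ℝ) ≤ H ∧
        ∃ c : ℤ, (d : ℝ) * (gq K q (j i) + P.eval (j i : ℝ)) = c) →
      δ * (j 0) * k < ((j (2 * k + K - 1) : ℝ) - j 0) ^ 2 := by
  obtain ⟨δ, hδ, hδ1, hpar⟩ := param K hK
  refine ⟨δ, hδ, hδ1, ?_⟩
  intro q k H P j hP hk hH hlog hj0 hj hjq hW hbad
  by_contra hcon
  push Not at hcon
  have hN : 2 * k + K = k + K + k := by ring
  rw [hN] at hj hjq hW hbad hcon
  set N := k + K + k with hNdef
  set x : ℕ → ℝ := fun i => (j i : ℝ) with hxdef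
  have hx : ∀ i, i + 1 < N → x i < x (i + 1) := fun i hi => by
    have := hj i hi
    simp only [hxdef]
    exact_mod_cast this
  have hgap := nat_gap N j hj
  have hgapN := hgap (N - 1) (by omega)
  have hR : (1 : ℝ) ≤ (j 0 : ℝ) := by exact_mod_cast hj0
  have hR0 : (0 : ℝ) < (j 0 : ℝ) := by linarith
  have hq1 : j 0 < q := by omega
  have hq0 : (0 : ℝ) < (q : ℝ) := by exact_mod_cast (by omega : 0 < q)
  have hWk : (k : ℝ) + 1 ≤ x (N - 1) - x 0 := by
    have : j 0 + k + 1 ≤ j (N - 1) := by omega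
    have h2 : ((j 0 + k + 1 : ℕ) : ℝ) ≤ (j (N - 1) : ℝ) := by exact_mod_cast this
    push_cast at h2
    simp only [hxdef]
    linarith
  have hkpos : (1 : ℝ) ≤ (k : ℝ) := by exact_mod_cast hk
  have hxq : x (N - 1) + (j 0 : ℝ) ≤ q := by
    simp only [hxdef]
    exact_mod_cast hjq
  have hkR : (k : ℝ) ≤ (j 0 : ℝ) := by
    have : x (N - 1) - x 0 ≤ (j 0 : ℝ) := hW
    linarith
  set y : ℕ → ℝ := fun i => gq K q (x i) + P.eval (x i) with hy
  -- nonvanishing
  have hne : (Mx (k + K) k (j 0 : ℝ) x y).det ≠ 0 := by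
    apply det_ne_zero K k hK hk q hq0 P hP (j 0) x
    · rw [hN]
      exact hx
    · exact hR0
    · rw [hN]
      linarith
  -- integrality
  have hint := det_int (k + K) k j H y (fun i hi => by
    have := hgap i hi
    omega) hbad hne
  -- Newton coefficients
  choose cc hcc using fun c : ℕ => newton_exists N x hx (col (k + K) (j 0 : ℝ) x y c)
  have hmono := strict_of_step N x hx
  have hcol1 : ∀ c, c < k + K → ∀ i, col (k + K) (j 0 : ℝ) x y c i =
      (bp (j 0 : ℝ) c).eval (x i) := by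
    intro c hc i
    unfold col
    rw [if_pos hc]
  have hcol2 : ∀ l, ∀ i, col (k + K) (j 0 : ℝ) x y (k + K + l) i =
      (bp (j 0 : ℝ) l).eval (x i) * y i := by
    intro l i
    unfold col
    rw [if_neg (by omega), show k + K + l - (k + K) = l by omega]
  have hmvt : ∀ c, c < k + K → ∀ r, r < N → ∃ ξ, (derivative^[r] (bp (j 0 : ℝ) c)).eval ξ =
      (r.factorial : ℝ) * cc c r := by
    intro c hc r hr
    obtain ⟨ξ, _, _, h⟩ := newton_mvt (fun n t => (derivative^[n] (bp (j 0 : ℝ) c)).eval t) 0 q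
      (poly_chain _ _ _) N r hr x hx hR0 (by linarith) (cc c) (fun i hi => by
        rw [← hcc c i hi, hcol1 c hc]
        simp)
    exact ⟨ξ, h⟩
  have hdet := det_bound (k + K) k x (Mx (k + K) k (j 0 : ℝ) x y) (fun s c => cc c s)
    (fun r c => by
      have := hcc c r r.2
      rw [← this]
      rfl)
    (fun r c hc hcr hr => by
      obtain ⟨ξ, h⟩ := hmvt c hc r hr
      rw [iterate_derivative_eq_zero (by rw [bp_natDegree]; exact hcr), eval_zero] at h
      have hrf : (r.factorial : ℝ) ≠ 0 := by positivity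
      exact (mul_eq_zero.1 h.symm).resolve_left hrf)
    (fun c hc => by
      obtain ⟨ξ, h⟩ := hmvt c hc c (by omega)
      rw [bp_deriv, eval_one] at h
      have hrf : (c.factorial : ℝ) ≠ 0 := by positivity
      rw [eq_div_iff hrf, mul_comm]
      exact h.symm)
    (j 0 : ℝ) (2 ^ (K + 1) / (q : ℝ) ^ (K - 1)) (x (N - 1) - x 0) hR0 (by positivity)
    (fun s l hs hl => entry_bound K k hK q hq0 P hP N hNdef x hx (j 0 : ℝ) hR0 rfl hxq hW hkR
      s l hs hl (cc (k + K + l)) (fun i hi => by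
        rw [← hcc (k + K + l) i hi, hcol2]))
    (fun i i' hii hi' => by
      have h1 := hmono i' hi' i hii
      have h2 : x 0 ≤ x i := by
        rcases Nat.eq_zero_or_pos i with h | h
        · rw [h]
        · exact (hmono i (by omega) 0 h).le
      have h3 : x i' ≤ x (N - 1) := by
        rcases Nat.lt_or_ge i' (N - 1) with h | h
        · exact (hmono (N - 1) (by omega) i' h).le
        · have : i' = N - 1 := by omega
          rw [this]
      constructor
      · linarith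
      · linarith)
  have hp := hpar k q H (j 0 : ℝ) (x (N - 1) - x 0) hk hR (by exact_mod_cast hq1.le) hH hlog
    (by linarith) hcon
  rw [hN] at hp
  rw [prod_pow_inv k _ hR0] at hdet
  set W := x (N - 1) - x 0 with hWdef
  set A1 := W ^ (N * (N - 1) / 2) with hA1
  set F1 := ∏ i ∈ range (k + K), (i.factorial : ℝ) with hF1
  set F2 := ∏ l ∈ range k, (l.factorial : ℝ) with hF2
  have hF1p : 0 < F1 := Finset.prod_pos fun i _ => by positivity
  have hF2p : 0 < F2 := Finset.prod_pos fun i _ => by positivity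
  have hinv : ∏ i ∈ range (k + K), 1 / (i.factorial : ℝ) = 1 / F1 := by
    rw [Finset.prod_div_distrib, Finset.prod_const_one]
  rw [hinv, div_pow, ← pow_mul (q : ℝ) (K - 1) k] at hdet
  set Rp := (j 0 : ℝ) ^ (k * (k + 1)) with hRp
  set Qp := (q : ℝ) ^ ((K - 1) * k) with hQp
  have hRpp : 0 < Rp := by positivity
  have hQpp : 0 < Qp := by positivity
  have hden : 0 < Qp * Rp * F1 * F2 := by positivity
  have hfin : H ^ N * |(Mx (k + K) k (j 0 : ℝ) x y).det| ≤
      H ^ N * (A1 * (k.factorial : ℝ) * (2 ^ (K + 1)) ^ k * 2 ^ (k * (k - 1) / 2)) /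
        (Qp * Rp * F1 * F2) := by
    calc H ^ N * |(Mx (k + K) k (j 0 : ℝ) x y).det| ≤ H ^ N * (A1 * (1 / F1) *
          ((k.factorial : ℝ) * ((2 ^ (K + 1)) ^ k / Qp)) *
          (2 ^ (k * (k - 1) / 2) / (Rp * F2))) :=
          mul_le_mul_of_nonneg_left hdet (by positivity)
      _ = _ := by
          field_simp
  have h1 : H ^ N * (A1 * (k.factorial : ℝ) * (2 ^ (K + 1)) ^ k * 2 ^ (k * (k - 1) / 2)) /
      (Qp * Rp * F1 * F2) < 1 := by
    rw [div_lt_one hden]
    exact hp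
  linarith

end Pool.Agent.LibTri68P
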