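import Pool.Agent.LibTri68P.P14
import Pool.Agent.LibTri68P.P15

open Filter Topology Polynomial Finset
open Pool.Agent.LibTri77

namespace Pool.Agent.LibTri68P

/-- `j` is bad: the value at `j / q` is a rational number of denominator at most `H` -/
def Bad (K q : ℕ) (H : ℝ) (P : ℝ[X]) (j : ℕ) : Prop :=
  ∃ d : ℕ, 1 ≤ d ∧ (d : ℝ) ≤ H ∧
    ∃ c : ℤ, (d : ℝ) * (U K ((j : ℝ) / q) / Real.pi ^ K + P.eval ((j : ℝ) / q)) = c

lemma half_finite (K q : ℕ) (H : ℝ) (P : ℝ[X]) :
    {j : ℕ | 0 < j ∧ 2 * j ≤ q ∧ Bad K q H P j}.Finite :=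
  (Finset.Icc 1 q).finite_toSet.subset fun j hj => by
    simp only [Finset.coe_Icc, Set.mem_Icc]
    obtain ⟨h1, h2, _⟩ := hj
    omega

/-- the points in the first half -/
theorem half (K : ℕ) (hK : 2 ≤ K) : ∃ C : ℝ, 0 ≤ C ∧ ∀ (q : ℕ) (H : ℝ) (P : ℝ[X]), 2 ≤ q →
    1 ≤ H → P.natDegree ≤ K →
    ((({j : ℕ | 0 < j ∧ 2 * j ≤ q ∧ Bad K q H P j}).ncard : ℕ) : ℝ) ≤
      C * √(q * Real.log (q * H)) := by
  classical
  obtain ⟨δ, hδ, hδ1, hwin⟩ := window K hK
  have hsδ : 0 < √δ := Real.sqrt_pos.2 hδ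
  refine ⟨2 * ((K + 2) * (3 / √δ + 1)), by positivity, ?_⟩
  intro q H P hq hH hP
  have hqr : (2 : ℝ) ≤ q := by exact_mod_cast hq
  set L := Real.log (q * H) with hL
  have hqH : (2 : ℝ) ≤ q * H := by nlinarith
  have hL2 : Real.log 2 ≤ L := Real.log_le_log (by norm_num) hqH
  have hlog2 := Real.log_two_gt_d9
  have hLpos : 0 < L := by linarith
  set k := ⌈L⌉₊ with hk
  have hk1 : 1 ≤ k := Nat.one_le_iff_ne_zero.2 (by
    rw [hk]
    exact (Nat.ceil_pos.2 hLpos).ne')
  have hkL : L ≤ k := Nat.le_ceil L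
  have hkL2 : (k : ℝ) < L + 1 := Nat.ceil_lt_add_one hLpos.le
  have hk3 : (k : ℝ) ≤ 4 * L := by linarith
  have hkr : (1 : ℝ) ≤ k := by exact_mod_cast hk1
  have hsq : √((q : ℝ) * k) ≤ 2 * √((q : ℝ) * L) := by
    have : (q : ℝ) * k ≤ 2 ^ 2 * ((q : ℝ) * L) := by nlinarith
    calc √((q : ℝ) * k) ≤ √(2 ^ 2 * ((q : ℝ) * L)) := Real.sqrt_le_sqrt this
      _ = 2 * √((q : ℝ) * L) := by
        rw [Real.sqrt_mul (by positivity), Real.sqrt_sq (by norm_num)]
  set T : Finset ℕ := (Finset.Icc 1 q).filter (fun j => 2 * j ≤ q ∧ Bad K q H P j) with hT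
  have hset : {j : ℕ | 0 < j ∧ 2 * j ≤ q ∧ Bad K q H P j} = (T : Set ℕ) := by
    ext j
    simp only [Set.mem_setOf_eq, hT, Finset.coe_filter, Finset.mem_Icc]
    constructor
    · rintro ⟨h1, h2, h3⟩
      exact ⟨⟨h1, by omega⟩, h2, h3⟩
    · rintro ⟨⟨h1, _⟩, h2, h3⟩
      exact ⟨h1, h2, h3⟩
  rw [hset, Set.ncard_coe_finset]
  have hmain : (T.card : ℝ) ≤ (K + 2) * (3 / √δ + 1) * √((q : ℝ) * k) := by
    have hc1 : (1 : ℝ) ≤ (K + 2) * (3 / √δ + 1) := by
      have h1 : (0 : ℝ) ≤ 3 / √δ := by positivity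
      have h2 : (0 : ℝ) ≤ K := Nat.cast_nonneg K
      nlinarith
    have hs0 : 0 ≤ √((q : ℝ) * k) := Real.sqrt_nonneg _
    rcases Nat.lt_or_ge q k with hqk | hqk
    · have h1 : T.card ≤ q := by
        calc T.card ≤ (Finset.Icc 1 q).card := Finset.card_filter_le _ _
          _ = q := by simp
      have h2 : (T.card : ℝ) ≤ √((q : ℝ) * k) := by
        have h3 : (T.card : ℝ) ≤ q := by exact_mod_cast h1
        refine h3.trans ?_
        apply Real.le_sqrt_of_sq_le
        have : (q : ℝ) ≤ k := by exact_mod_cast hqk.le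
        nlinarith
      nlinarith
    · set P' : ℝ[X] := P.comp (C (1 / (q : ℝ)) * X) with hP'
      have hP'd : P'.natDegree ≤ K := by
        rw [hP', natDegree_comp]
        have : (C (1 / (q : ℝ)) * X).natDegree ≤ 1 :=
          (natDegree_C_mul_le _ _).trans natDegree_X_le
        nlinarith
      have hP'e : ∀ j : ℕ, P'.eval (j : ℝ) = P.eval ((j : ℝ) / q) := by
        intro j
        rw [hP', eval_comp]
        simp only [eval_mul, eval_C, eval_X]
        congr 1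
        ring
      have hkpos : (0 : ℝ) < k := by linarith
      have hw : 0 < √(δ * k) / 3 := by
        have := Real.sqrt_pos.2 (mul_pos hδ hkpos)
        positivity
      have hcount := count T (2 * k + K) (by omega) (fun j => √(j : ℝ)) (√(δ * k) / 3) (√(q : ℝ))
        hw (Real.sqrt_nonneg _) (by
          intro j hj
          rw [hT, Finset.mem_filter, Finset.mem_Icc] at hj
          refine ⟨Real.sqrt_nonneg _, Real.sqrt_le_sqrt ?_⟩
          exact_mod_cast hj.1.2) (by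
          intro b hb hbT
          have hb0 := hbT 0 (by omega)
          have hbN := hbT (2 * k + K - 1) (by omega)
          rw [hT, Finset.mem_filter, Finset.mem_Icc] at hb0 hbN
          have hgap := nat_gap (2 * k + K) b hb (2 * k + K - 1) (by omega)
          have hgap2 : (b 0 : ℝ) + k ≤ b (2 * k + K - 1) := by
            exact_mod_cast (by omega : b 0 + k ≤ b (2 * k + K - 1))
          have hg := sqrt_gap (b 0 : ℝ) ((b (2 * k + K - 1) : ℝ) - b 0) δ k
            (by exact_mod_cast hb0.1.1) hkr (by linarith) hδ hδ1 (by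
              intro hle
              exact hwin q k H P' b hP'd hk1 hH hkL hb0.1.1 hb (by omega) hle (by
                intro i hi
                have hbi := hbT i hi
                rw [hT, Finset.mem_filter] at hbi
                obtain ⟨d, hd1, hd2, c, hc⟩ := hbi.2.2
                refine ⟨d, hd1, hd2, c, ?_⟩
                rw [hP'e]
                exact hc))
          rwa [add_sub_cancel] at hg)
      refine hcount.trans ?_
      have e1 : √(q : ℝ) / (√(δ * k) / 3) * k = 3 / √δ * √((q : ℝ) * k) := by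
        have hsk : 0 < √(k : ℝ) := Real.sqrt_pos.2 hkpos
        have hkk : (k : ℝ) = √(k : ℝ) * √(k : ℝ) := (Real.mul_self_sqrt hkpos.le).symm
        rw [Real.sqrt_mul hδ.le, Real.sqrt_mul (by positivity : (0 : ℝ) ≤ (q : ℝ))]
        rw [div_div_eq_mul_div, div_mul_eq_mul_div, div_mul_eq_mul_div,
          div_eq_div_iff (by positivity) (by positivity)]
        calc √(q : ℝ) * 3 * k * √δ = √(q : ℝ) * 3 * (√(k : ℝ) * √(k : ℝ)) * √δ := by rw [← hkk]
          _ = _ := by ring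
      have e2 : (k : ℝ) ≤ √((q : ℝ) * k) := by
        apply Real.le_sqrt_of_sq_le
        have : (k : ℝ) ≤ q := by exact_mod_cast hqk
        nlinarith
      have hX : 0 ≤ √(q : ℝ) / (√(δ * k) / 3) := by positivity
      set X := √(q : ℝ) / (√(δ * k) / 3) with hXdef
      push_cast
      have hKk : (K : ℝ) ≤ K * k := by
        have : (0 : ℝ) ≤ K := Nat.cast_nonneg K
        nlinarith
      calc (2 * (k : ℝ) + K - 1) * (X + 1) + 1 ≤ (2 * (k : ℝ) + K) * (X + 1) := by nlinarith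
        _ ≤ ((K + 2) * k) * (X + 1) := by
          apply mul_le_mul_of_nonneg_right _ (by linarith)
          linarith
        _ = (K + 2) * (X * k + k) := by ring
        _ ≤ (K + 2) * (3 / √δ * √((q : ℝ) * k) + √((q : ℝ) * k)) := by
          apply mul_le_mul_of_nonneg_left _ (by positivity)
          rw [e1]
          linarith
        _ = _ := by ring
  calc (T.card : ℝ) ≤ (K + 2) * (3 / √δ + 1) * √((q : ℝ) * k) := hmain
    _ ≤ (K + 2) * (3 / √δ + 1) * (2 * √((q : ℝ) * L)) :=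
        mul_le_mul_of_nonneg_left hsq (by positivity)
    _ = _ := by ring

lemma U_reflect (K : ℕ) (hK : 1 ≤ K) (x : ℝ) : U K (1 - x) = (-1) ^ (K - 1) * U K x := by
  obtain ⟨L, rfl⟩ : ∃ L, K = L + 1 := ⟨K - 1, by omega⟩
  rw [Nat.add_sub_cancel]
  unfold U
  rw [← tsum_mul_left]
  apply tsum_congr
  intro n
  unfold tm
  have e1 : 2 * Real.pi * ((n : ℝ) + 1) * (1 - x) - (((L + 1 : ℕ) : ℝ) - 1) * Real.pi / 2 =
      -((2 * Real.pi * ((n : ℝ) + 1) * x - (((L + 1 : ℕ) : ℝ) - 1) * Real.pi / 2) + L * Real.pi) +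
        ((n + 1 : ℕ) : ℝ) * (2 * Real.pi) := by
    push_cast
    ring
  rw [e1, Real.cos_add_nat_mul_two_pi, Real.cos_neg, Real.cos_add_nat_mul_pi]
  ring

/-- main theorem -/
theorem main (K : ℕ) (hK : 2 ≤ K) : ∃ C : ℝ, ∀ (q : ℕ) (H : ℝ) (P : ℝ[X]), 2 ≤ q → 1 ≤ H →
    P.natDegree ≤ K →
    ((({j : ℕ | 0 < j ∧ j < q ∧ Bad K q H P j}).ncard : ℕ) : ℝ) ≤ C * √(q * Real.log (q * H)) := by
  obtain ⟨C₀, hC, h⟩ := half K hK
  refine ⟨2 * C₀, ?_⟩
  intro q H P hq hH hP
  set P₂ : ℝ[X] := C ((-1 : ℝ) ^ (K - 1)) * P.comp (1 - X) with hP₂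
  have hP₂d : P₂.natDegree ≤ K := by
    refine (natDegree_C_mul_le _ _).trans ?_
    rw [natDegree_comp]
    have : (1 - X : ℝ[X]).natDegree ≤ 1 := by
      refine (natDegree_sub_le _ _).trans ?_
      simp
    nlinarith
  have h1 := h q H P hq hH hP
  have h2 := h q H P₂ hq hH hP₂d
  set S₁ := {j : ℕ | 0 < j ∧ 2 * j ≤ q ∧ Bad K q H P j} with hS₁
  set S₂ := {j : ℕ | 0 < j ∧ 2 * j ≤ q ∧ Bad K q H P₂ j} with hS₂
  have hq0 : (q : ℝ) ≠ 0 := by
    have : (2 : ℝ) ≤ q := by exact_mod_cast hq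
    linarith
  have hsub : {j : ℕ | 0 < j ∧ j < q ∧ Bad K q H P j} ⊆ S₁ ∪ (fun j => q - j) '' S₂ := by
    rintro j ⟨hj0, hjq, hb⟩
    rcases Nat.lt_or_ge q (2 * j) with hlt | hge
    · right
      refine ⟨q - j, ⟨by omega, by omega, ?_⟩, by
        show q - (q - j) = j
        omega⟩
      obtain ⟨d, hd1, hd2, c, hc⟩ := hb
      refine ⟨d, hd1, hd2, (-1) ^ (K - 1) * c, ?_⟩
      have e1 : (((q - j : ℕ) : ℝ)) / q = 1 - (j : ℝ) / q := by
        rw [Nat.cast_sub hjq.le]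
        field_simp
      rw [e1, U_reflect K (by omega), hP₂]
      simp only [eval_mul, eval_C, eval_comp, eval_sub, eval_one, eval_X]
      rw [sub_sub_cancel]
      push_cast
      rw [← hc]
      ring
    · left
      exact ⟨hj0, hge, hb⟩
  have hfin1 : S₁.Finite := half_finite K q H P
  have hfin2 : S₂.Finite := half_finite K q H P₂
  have h3 : ({j : ℕ | 0 < j ∧ j < q ∧ Bad K q H P j}).ncard ≤ S₁.ncard + S₂.ncard := by
    refine (Set.ncard_le_ncard hsub (hfin1.union (hfin2.image _))).trans ?_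
    refine (Set.ncard_union_le _ _).trans ?_
    exact Nat.add_le_add_left (Set.ncard_image_le hfin2) _
  calc ((({j : ℕ | 0 < j ∧ j < q ∧ Bad K q H P j}).ncard : ℕ) : ℝ)
      ≤ ((S₁.ncard + S₂.ncard : ℕ) : ℝ) := by exact_mod_cast h3
    _ = (S₁.ncard : ℝ) + S₂.ncard := by push_cast; rfl
    _ ≤ C₀ * √(q * Real.log (q * H)) + C₀ * √(q * Real.log (q * H)) := add_le_add h1 h2
    _ = _ := by ring

end Pool.Agent.LibTri68P
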