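import Pool.Agent.LibTri77.Dist

/-! Definitions for the theorem on almost all roots of unity -/

open Polynomial Finset
open Pool.Agent.LibTri77

namespace Pool.Agent.LibTri68P

/-- sum over the poles `qℤ` of `(t - pole)^(-s)` -/
noncomputable def S (q : ℝ) (s : ℕ) (t : ℝ) : ℝ :=
  1 / t ^ s + ∑' n : ℕ, (1 / (t + -(q * ((n : ℝ) + 1))) ^ s + 1 / (t + q * ((n : ℝ) + 1)) ^ s)

/-- `D n` is the `n`-th derivative of `D 0` on `(a, b)` -/
def Chain (D : ℕ → ℝ → ℝ) (a b : ℝ) : Prop :=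
  ∀ n t, a < t → t < b → HasDerivAt (D n) (D (n + 1) t) t

/-- the `n`-th derivative of `Q * D 0` (Leibniz) -/
noncomputable def mulS (Q : ℝ[X]) (D : ℕ → ℝ → ℝ) (n : ℕ) (t : ℝ) : ℝ :=
  ∑ i ∈ range (n + 1), (n.choose i : ℝ) * ((derivative^[i] Q).eval t * D (n - i) t)

/-- `HS D a l n` is the `n`-th derivative of `(t - a)(t - a - 1)...(t - a - l + 1) D 0` -/
noncomputable def HS (D : ℕ → ℝ → ℝ) (a : ℝ) : ℕ → ℕ → ℝ → ℝ
  | 0 => D
  | l + 1 => fun n t => (t - (a + l)) * HS D a l n t + n * HS D a l (n - 1) t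

/-- the binomial coefficient `binom(X - a, i)` -/
noncomputable def bp (a : ℝ) (i : ℕ) : ℝ[X] :=
  C (1 / (i.factorial : ℝ)) * ∏ l ∈ range i, (X - C (a + l))

/-- Newton basis -/
noncomputable def nw (x : ℕ → ℝ) (s : ℕ) (t : ℝ) : ℝ := ∏ b ∈ range s, (t - x b)

/-- `U K (t/q) / π^K` -/
noncomputable def gq (K : ℕ) (q : ℝ) (t : ℝ) : ℝ := U K (t / q) / Real.pi ^ K

/-- the matrix: row `r` is `binom(x_r - a, c)`, `c < m`, then `binom(x_r - a, l) y_r`, `l < k` -/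
noncomputable def Mx (m k : ℕ) (a : ℝ) (x y : ℕ → ℝ) : Matrix (Fin (m + k)) (Fin (m + k)) ℝ :=
  fun r c => if (c : ℕ) < m then (bp a c).eval (x r) else (bp a (c - m)).eval (x r) * y r

end Pool.Agent.LibTri68P
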